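import Pool.Agent.Helper75.Ch.Tree

set_option autoImplicit false
set_option linter.unusedSectionVars false
set_option linter.unusedSimpArgs false

namespace Pool.Agent.Helper75.Ch

open Finset Classical

variable {V : Type*} [Fintype V] {G : SimpleGraph V}

theorem conn_union_family {St W : Finset V} (hSt : Conn G St)
    (h : ∀ x ∈ W, ∃ C, C ⊆ St ∪ W ∧ Conn G C ∧ x ∈ C ∧ ∃ y ∈ C, y ∈ St) : Conn G (St ∪ W) := by
  refine ⟨hSt.1.mono subset_union_left, fun A hA hne hcl => ?_⟩
  obtain ⟨w, hw⟩ := hne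
  have hC : ∀ C, C ⊆ St ∪ W → Conn G C → ∀ y ∈ C, y ∈ A → C ⊆ A := by
    intro C hCs hC y hy hyA
    exact hC.subset_of_closed hy hyA (fun a ha _ b hb hab => hcl a ha b (hCs hb) hab)
  have hStA : St ⊆ A := by
    rcases mem_union.mp (hA hw) with h1 | h1
    · exact hC St subset_union_left hSt w h1 hw
    · obtain ⟨C, hCs, hCc, hwC, y, hyC, hySt⟩ := h w h1
      exact hC St subset_union_left hSt y hySt (hC C hCs hCc w hwC hw hyC)
  apply Finset.Subset.antisymm hA
  apply union_subset hStA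
  intro x hx
  obtain ⟨C, hCs, hCc, hxC, y, hyC, hySt⟩ := h x hx
  exact hC C hCs hCc y hyC (hStA hySt) hxC

/-- seeds and centres of a gadget -/
def sd (P : Fin 6 → V) : Fin 4 → V := ![P 2, P 3, P 4, P 5]

def ctr (P : Fin 6 → V) : Fin 4 → V := ![P 0, P 0, P 1, P 1]

/-- all vertices of the gadget -/
noncomputable def im (P : Fin 6 → V) : Finset V := Finset.univ.image P

theorem mem_im (P : Fin 6 → V) (a : Fin 6) : P a ∈ im P := mem_image_of_mem _ (mem_univ _)

theorem sd_mem_im (P : Fin 6 → V) (k : Fin 4) : sd P k ∈ im P := by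
  fin_cases k
  · exact mem_im P 2
  · exact mem_im P 3
  · exact mem_im P 4
  · exact mem_im P 5

theorem card_im (P : Fin 6 → V) : (im P).card ≤ 6 := card_image_le.trans (by simp)

theorem Cand.conn_im {D r : ℕ} {P : Fin 6 → V} (h : Cand G D r P) : Conn G (im P) := by
  have h1 : im P = insert (P 5) (insert (P 4) (insert (P 3) (insert (P 2) {P 0, P 1}))) := by
    ext z
    simp only [im, mem_image, mem_univ, true_and, mem_insert, mem_singleton]
    constructor
    · rintro ⟨a, rfl⟩
      fin_cases a <;> simp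
    · rintro (h | h | h | h | h | h)
      · exact ⟨5, h.symm⟩
      · exact ⟨4, h.symm⟩
      · exact ⟨3, h.symm⟩
      · exact ⟨2, h.symm⟩
      · exact ⟨0, h.symm⟩
      · exact ⟨1, h.symm⟩
  obtain ⟨hinj, h01, h02, h03, h14, h15, _⟩ := h
  rw [h1]
  refine (((Conn.insert (conn_pair h01) (x := P 0) (by simp) h02).insert (x := P 0) (by simp)
    h03).insert (x := P 1) (by simp) h14).insert (x := P 1) (by simp) h15

/-- the exits of `W`, and the seeds outside `W` -/
noncomputable def exitset (G : SimpleGraph V) (P : Fin 6 → V) (Z W : Finset V) : Finset V :=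
  Finset.univ.filter (fun x => x ∉ W ∧ x ≠ P 0 ∧ x ≠ P 1 ∧
      ((∃ w ∈ W, G.Adj w x ∧ x ∉ Z) ∨ ∃ k, x = sd P k))

/-- `W` witnesses that the gadget `P` is bad -/
def BadW (G : SimpleGraph V) (D C : ℕ) (P : Fin 6 → V) (Z W : Finset V) : Prop :=
  P 0 ∉ W ∧ P 1 ∉ W ∧ W.card ≤ C ∧
    (∀ x ∈ W, (nbv G x).card ≤ D ∧ ∃ k, sd P k ∈ W ∧ x ∈ comp G W (sd P k)) ∧
    (exitset G P Z W).card ≤ 3

theorem BadW.mem_ball {D C : ℕ} {P : Fin 6 → V} {Z W : Finset V} (h : BadW G D C P Z W) {x : V}
    (hx : x ∈ W) : ∃ k, x ∈ ball G D C (sd P k) := by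
  obtain ⟨_, _, hc, hW, _⟩ := h
  obtain ⟨_, k, hk, hxk⟩ := hW x hx
  refine ⟨k, ?_⟩
  have hQ : Conn G (comp G W (sd P k)) := comp_conn hk
  obtain ⟨p, hp, hps⟩ := hQ.exists_path (mem_comp_self hk) hxk
  have hdeg : ∀ z ∈ p.support, (nbv G z).card ≤ D := fun z hz =>
    (hW z (comp_subset _ _ (hps z hz))).1
  have htr : ∀ e ∈ p.edges, e ∈ (Lw G D).edgeSet := by
    intro e he
    induction e using Sym2.ind with
    | h a b =>
      rw [SimpleGraph.mem_edgeSet]
      exact ⟨p.adj_of_mem_edges he, hdeg a (p.fst_mem_support_of_mem_edges he),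
        hdeg b (p.snd_mem_support_of_mem_edges he)⟩
  rw [Ch.mem_ball]
  refine ⟨p.transfer _ htr, ?_⟩
  rw [SimpleGraph.Walk.length_transfer]
  have h1 : p.support.toFinset ⊆ W := fun z hz =>
    comp_subset _ _ (hps z (List.mem_toFinset.mp hz))
  have h2 := card_le_card h1
  rw [List.toFinset_card_of_nodup hp.support_nodup, SimpleGraph.Walk.length_support] at h2
  omega

/-- the bounded region around a gadget -/
noncomputable def Lreg (G : SimpleGraph V) (D C : ℕ) (P : Fin 6 → V) : Finset V :=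
  (Finset.univ.biUnion fun k : Fin 4 => ball G D C (sd P k)).filter fun z => (nbv G z).card ≤ D

noncomputable def Reg (G : SimpleGraph V) (D C : ℕ) (P : Fin 6 → V) : Finset V :=
  im P ∪ (Lreg G D C P ∪ (Lreg G D C P).biUnion fun z => nbv G z)

theorem card_Reg (D C : ℕ) (P : Fin 6 → V) :
    (Reg G D C P).card ≤ 6 + (4 * (D + 1) ^ C + 4 * (D + 1) ^ C * D) := by
  have h1 : (Lreg G D C P).card ≤ 4 * (D + 1) ^ C := by
    refine (card_filter_le _ _).trans ?_
    refine (card_biUnion_le_card_mul _ _ _ fun k _ => card_ball D C (sd P k)).trans ?_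
    simp
  refine (card_union_le _ _).trans ?_
  refine add_le_add (card_im P) ?_
  refine (card_union_le _ _).trans ?_
  refine add_le_add h1 ?_
  refine (card_biUnion_le_card_mul _ _ D fun z hz => ?_).trans ?_
  · exact (mem_filter.mp hz).2
  · gcongr

theorem BadW.subset_Lreg {D C : ℕ} {P : Fin 6 → V} {Z W : Finset V} (h : BadW G D C P Z W) :
    W ⊆ Lreg G D C P := by
  intro x hx
  obtain ⟨k, hk⟩ := h.mem_ball hx
  rw [Lreg, mem_filter, mem_biUnion]
  exact ⟨⟨k, mem_univ _, hk⟩, (h.2.2.2.1 x hx).1⟩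

theorem Lreg_subset_Reg {D C : ℕ} {P : Fin 6 → V} : Lreg G D C P ⊆ Reg G D C P :=
  subset_union_left.trans subset_union_right

theorem nbv_subset_Reg {D C : ℕ} {P : Fin 6 → V} {x y : V} (hx : x ∈ Lreg G D C P)
    (h : G.Adj x y) : y ∈ Reg G D C P := by
  rw [Reg, mem_union, mem_union, mem_biUnion]
  exact Or.inr (Or.inr ⟨x, hx, mem_nbv.mpr h⟩)

theorem im_subset_Reg {D C : ℕ} {P : Fin 6 → V} : im P ⊆ Reg G D C P := subset_union_left

/-- Three bad gadgets with the same neighbours in the kernel are impossible. -/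
theorem three_bad {c D C : ℕ} (hg : NoShort G (2 * c + 30)) (hDC : 3 * C + 3 ≤ D)
    (hpm : ∀ W Z : Finset V, (W ∪ nb G W).card ≤ 3 * C + 3 * C * D →
      (nb G W \ Z).card ≤ 15 →
      (∀ z ∈ Z, z ∈ nb G W → 3 ≤ (nbv G z ∩ W).card ∧ 3 ≤ (nbv G z \ W).card) →
      (W ∪ nb G W).card ≤ c)
    (P : Fin 3 → Fin 6 → V) (Z : Finset V) (W : Fin 3 → Finset V)
    (hP : ∀ i, Cand G D C (P i)) (hPZ : ∀ i a, P i a ∉ Z)
    (hZ : ∀ i j, i ≠ j → ∀ x, x ∈ Reg G D C (P i) → x ∈ Reg G D C (P j) → x ∈ Z)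
    (hZdeg : ∀ z ∈ Z, D < (nbv G z).card)
    (hW : ∀ i, BadW G D C (P i) Z (W i))
    (hpat : ∀ i j, nb G (W i) ∩ Z = nb G (W j) ∩ Z) : False := by
  have hdeg : ∀ i, ∀ x ∈ W i, (nbv G x).card ≤ D := fun i x hx => ((hW i).2.2.2.1 x hx).1
  have hWZ : ∀ i, ∀ x ∈ W i, x ∉ Z := fun i x hx hz => by
    have := hdeg i x hx
    have := hZdeg x hz
    omega
  -- disjoint and non-adjacent
  have hdis : ∀ i j, i ≠ j → ∀ x, x ∈ W i → x ∉ W j := by
    intro i j hij x hx hx'
    exact hWZ i x hx (hZ i j hij x (Lreg_subset_Reg ((hW i).subset_Lreg hx))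
      (Lreg_subset_Reg ((hW j).subset_Lreg hx')))
  have hnadj : ∀ i j, i ≠ j → ∀ x y, x ∈ W i → y ∈ W j → ¬ G.Adj x y := by
    intro i j hij x y hx hy h
    exact hWZ j y hy (hZ i j hij y (nbv_subset_Reg ((hW i).subset_Lreg hx) h)
      (Lreg_subset_Reg ((hW j).subset_Lreg hy)))
  set WW := Finset.univ.biUnion W with hWW
  have hnbWW : ∀ y, y ∈ nb G WW ↔ ∃ i, y ∈ nb G (W i) := by
    intro y
    simp only [mem_nb, hWW, mem_biUnion, mem_univ, true_and, not_exists]
    constructor
    · rintro ⟨h1, x, ⟨i, hi⟩, hxy⟩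
      exact ⟨i, h1 i, x, hi, hxy⟩
    · rintro ⟨i, h1, x, hx, hxy⟩
      refine ⟨fun j hj => ?_, x, ⟨i, hx⟩, hxy⟩
      by_cases hij : i = j
      · exact h1 (hij ▸ hj)
      · exact hnadj i j hij x y hx hj hxy
  have hWWcard : WW.card ≤ 3 * C := by
    refine (card_biUnion_le_card_mul _ _ C fun i _ => (hW i).2.2.1).trans ?_
    simp
  have hnbcard : (nb G WW).card ≤ 3 * C * D := by
    have h1 : nb G WW ⊆ WW.biUnion fun x => nbv G x := by
      intro y hy
      obtain ⟨_, x, hx, hxy⟩ := mem_nb.mp hy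
      exact mem_biUnion.mpr ⟨x, hx, mem_nbv.mpr hxy⟩
    refine (card_le_card h1).trans ?_
    refine (card_biUnion_le_card_mul _ _ D fun x hx => ?_).trans (by gcongr)
    rw [hWW, mem_biUnion] at hx
    obtain ⟨i, _, hi⟩ := hx
    exact hdeg i x hi
  have h15 : (nb G WW \ Z).card ≤ 15 := by
    have h1 : nb G WW \ Z ⊆ Finset.univ.biUnion fun i : Fin 3 =>
        {P i 0, P i 1} ∪ exitset G (P i) Z (W i) := by
      intro y hy
      rw [mem_sdiff] at hy
      obtain ⟨i, hi⟩ := (hnbWW y).mp hy.1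
      rw [mem_biUnion]
      refine ⟨i, mem_univ _, ?_⟩
      rw [mem_union]
      by_cases h0 : y = P i 0 ∨ y = P i 1
      · left; simpa using h0
      · right
        rw [not_or] at h0
        rw [exitset, mem_filter]
        obtain ⟨hyW, x, hx, hxy⟩ := mem_nb.mp hi
        exact ⟨mem_univ _, hyW, h0.1, h0.2, Or.inl ⟨x, hx, hxy, hy.2⟩⟩
    refine (card_le_card h1).trans ?_
    refine (card_biUnion_le_card_mul _ _ 5 fun i _ => ?_).trans (by simp)
    refine (card_union_le _ _).trans ?_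
    have h2 : ({P i 0, P i 1} : Finset V).card ≤ 2 := card_le_two
    have h3 := (hW i).2.2.2.2
    omega
  have hc := hpm WW Z (by
      refine (card_union_le _ _).trans ?_
      omega) h15 (by
    intro z hz hznb
    constructor
    · have hzi : ∀ i, z ∈ nb G (W i) := by
        intro i
        obtain ⟨j, hj⟩ := (hnbWW z).mp hznb
        have h1 : z ∈ nb G (W j) ∩ Z := mem_inter.mpr ⟨hj, hz⟩
        rw [hpat j i] at h1
        exact (mem_inter.mp h1).1
      have : ∀ i, ∃ x, x ∈ W i ∧ G.Adj x z := by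
        intro i
        obtain ⟨_, x, hx, hxz⟩ := mem_nb.mp (hzi i)
        exact ⟨x, hx, hxz⟩
      choose x hx hxz using this
      have hinj : Function.Injective x := by
        intro i j hij
        by_contra hne
        exact hdis i j hne (x i) (hx i) (hij ▸ hx j)
      have h3 : (Finset.univ.image x).card = 3 := by
        rw [card_image_of_injective _ hinj]; simp
      refine h3.ge.trans (card_le_card ?_)
      intro y hy
      obtain ⟨i, _, rfl⟩ := mem_image.mp hy
      rw [mem_inter, mem_nbv]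
      exact ⟨(hxz i).symm, mem_biUnion.mpr ⟨i, mem_univ _, hx i⟩⟩
    · have h1 := hZdeg z hz
      have h2 := card_inter_add_card_sdiff (nbv G z) WW
      have h3 : (nbv G z ∩ WW).card ≤ WW.card := card_le_card inter_subset_right
      omega)
  have hWc : ∀ i, (W i).card ≤ c := by
    intro i
    refine (card_le_card ?_).trans hc
    exact (subset_biUnion_of_mem W (mem_univ i)).trans subset_union_left
  -- star ∪ W is connected
  have hstar : ∀ i, Conn G (im (P i) ∪ W i) := by
    intro i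
    refine conn_union_family (hP i).conn_im fun x hx => ?_
    obtain ⟨_, k, hk, hxk⟩ := (hW i).2.2.2.1 x hx
    exact ⟨comp G (W i) (sd (P i) k), (comp_subset _ _).trans subset_union_right, comp_conn hk,
      hxk, sd (P i) k, mem_comp_self hk, sd_mem_im _ _⟩
  have hstarcard : ∀ i, (im (P i) ∪ W i).card ≤ c + 6 := by
    intro i
    refine (card_union_le _ _).trans ?_
    have := card_im (P i)
    have := hWc i
    omega
  have hZ1 : (nb G (W 0) ∩ Z).card ≤ 1 := by
    rw [card_le_one]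
    intro z hz z' hz'
    by_contra hne
    have hz2 := hz
    have hz2' := hz'
    rw [hpat 0 1] at hz2 hz2'
    rw [mem_inter] at hz hz' hz2 hz2'
    obtain ⟨hzW0, x, hx, hxz⟩ := mem_nb.mp hz.1
    obtain ⟨_, x', hx', hxz'⟩ := mem_nb.mp hz'.1
    obtain ⟨hzW1, y, hy, hyz⟩ := mem_nb.mp hz2.1
    obtain ⟨_, y', hy', hyz'⟩ := mem_nb.mp hz2'.1
    have hT1 := (hstar 0).insert (mem_union_right _ hx') hxz'
    have hT2 := hT1.union_of_adj (hstar 1) (mem_insert_self _ _) (mem_union_right _ hy') hyz'.symm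
    have hzim : ∀ i, z ∉ im (P i) := by
      intro i h
      obtain ⟨a, _, ha⟩ := mem_image.mp h
      exact hPZ i a (ha ▸ hz.2)
    have := hg.unique hT2 (y := z) (by
      have h1 := card_union_le (insert z' (im (P 0) ∪ W 0)) (im (P 1) ∪ W 1)
      have h2 := card_insert_le z' (im (P 0) ∪ W 0)
      have h3 := hstarcard 0
      have h4 := hstarcard 1
      omega) (by
      simp only [mem_union, mem_insert, not_or]
      exact ⟨⟨hne, hzim 0, hzW0⟩, hzim 1, hzW1⟩)
      (mem_union_left _ (mem_insert_of_mem (mem_union_right _ hx)))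
      (mem_union_right _ (mem_union_right _ hy)) hxz.symm hyz.symm
    exact hdis 0 1 (by decide) x hx (this ▸ hy)
  -- the tree argument
  obtain ⟨hinj, h01, h02, h03, h14, h15', hfine⟩ := hP 0
  have h4 := tree_exits (g := 2 * c + 30) hg h01 (sd (P 0)) (ctr (P 0)) (by
      intro a b hab
      have : ∀ k : Fin 4, sd (P 0) k = P 0 (k.natAdd 2) := by
        intro k; fin_cases k <;> rfl
      rw [this a, this b] at hab
      exact Fin.natAdd_injective _ _ (hinj hab)) (by
      intro k; fin_cases k <;> simp [ctr]) (by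
      intro k
      fin_cases k
      · exact h02
      · exact h03
      · exact h14
      · exact h15') (by
      intro k h
      have : ∀ k : Fin 4, sd (P 0) k = P 0 (k.natAdd 2) := by
        intro k; fin_cases k <;> rfl
      rw [this k] at h
      have := hinj h
      fin_cases k <;> simp at this) (by
      intro k h
      have : ∀ k : Fin 4, sd (P 0) k = P 0 (k.natAdd 2) := by
        intro k; fin_cases k <;> rfl
      rw [this k] at h
      have := hinj h
      fin_cases k <;> simp at this) (W 0) Z (hW 0).1 (hW 0).2.1 (by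
      intro x hx
      obtain ⟨k, hk⟩ := (hW 0).mem_ball hx
      have : ∀ k : Fin 4, sd (P 0) k = P 0 (k.natAdd 2) := by
        intro k; fin_cases k <;> rfl
      rw [this k] at hk
      exact hfine _ x hk) hZ1 (by have := hWc 0; omega)
  have h5 := (hW 0).2.2.2.2
  rw [exitset] at h5
  omega

end Pool.Agent.Helper75.Ch
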