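import Pool.Agent.Helper75.Ch.Defs

set_option autoImplicit false
set_option linter.unusedSectionVars false
set_option linter.unusedSimpArgs false

namespace Pool.Agent.Helper75.Ch

open Finset Classical

variable {V : Type*} [Fintype V] {G : SimpleGraph V}

theorem mem_nb {W : Finset V} {y : V} : y ∈ nb G W ↔ y ∉ W ∧ ∃ x ∈ W, G.Adj x y := by
  simp [nb]

theorem mem_nbv {x y : V} : y ∈ nbv G x ↔ G.Adj x y := by
  simp [nbv]

theorem Conn.nonempty {T : Finset V} (h : Conn G T) : T.Nonempty := h.1

theorem conn_singleton (x : V) : Conn G ({x} : Finset V) := by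
  refine ⟨singleton_nonempty x, fun W hW hne _ => ?_⟩
  rcases Finset.subset_singleton_iff.mp hW with h | h
  · exact absurd h hne.ne_empty
  · exact h

/-- a closed subset of a connected set which meets it contains it. -/
theorem Conn.subset_of_closed {T W : Finset V} (h : Conn G T) {x : V} (hx : x ∈ T) (hxW : x ∈ W)
    (hcl : ∀ a ∈ W, a ∈ T → ∀ b ∈ T, G.Adj a b → b ∈ W) : T ⊆ W := by
  have := h.2 (T ∩ W) inter_subset_left ⟨x, mem_inter.mpr ⟨hx, hxW⟩⟩ (fun a ha b hb hab => by
    rw [mem_inter] at ha ⊢
    exact ⟨hb, hcl a ha.2 ha.1 b hb hab⟩)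
  intro y hy
  rw [← this] at hy
  exact (mem_inter.mp hy).2

theorem Conn.union_of_mem {S T : Finset V} (hS : Conn G S) (hT : Conn G T) {x : V} (h1 : x ∈ S)
    (h2 : x ∈ T) : Conn G (S ∪ T) := by
  refine ⟨hS.1.mono subset_union_left, fun W hW hne hcl => ?_⟩
  obtain ⟨w, hw⟩ := hne
  have key : x ∈ W := by
    rcases mem_union.mp (hW hw) with h | h
    · exact (hS.subset_of_closed h hw (fun a ha _ b hb hab =>
        hcl a ha b (mem_union_left _ hb) hab)) h1
    · exact (hT.subset_of_closed h hw (fun a ha _ b hb hab =>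
        hcl a ha b (mem_union_right _ hb) hab)) h2
  apply Finset.Subset.antisymm hW
  apply union_subset
  · exact hS.subset_of_closed h1 key (fun a ha _ b hb hab => hcl a ha b (mem_union_left _ hb) hab)
  · exact hT.subset_of_closed h2 key (fun a ha _ b hb hab => hcl a ha b (mem_union_right _ hb) hab)

theorem Conn.insert {T : Finset V} (hT : Conn G T) {x y : V} (hx : x ∈ T) (hxy : G.Adj x y) :
    Conn G (insert y T) := by
  by_cases hy : y ∈ T
  · rwa [insert_eq_of_mem hy]
  refine ⟨insert_nonempty _ _, fun W hW hne hcl => ?_⟩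
  obtain ⟨w, hw⟩ := hne
  have key : x ∈ W := by
    rcases mem_insert.mp (hW hw) with h | h
    · subst h; exact hcl w hw x (mem_insert_of_mem hx) hxy.symm
    · exact (hT.subset_of_closed h hw (fun a ha _ b hb hab =>
        hcl a ha b (mem_insert_of_mem hb) hab)) hx
  apply Finset.Subset.antisymm hW
  apply insert_subset
  · exact hcl x key y (mem_insert_self _ _) hxy
  · exact hT.subset_of_closed hx key (fun a ha _ b hb hab => hcl a ha b (mem_insert_of_mem hb) hab)

theorem Conn.union_of_adj {S T : Finset V} (hS : Conn G S) (hT : Conn G T) {x y : V} (h1 : x ∈ S)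
    (h2 : y ∈ T) (h : G.Adj x y) : Conn G (S ∪ T) := by
  have := (hS.insert h1 h).union_of_mem hT (mem_insert_self y S) h2
  rwa [insert_union, insert_eq_of_mem (mem_union_right _ h2)] at this

theorem Conn.union_of_touch {S T : Finset V} (hS : Conn G S) (hT : Conn G T)
    (h : Touch G S T) : Conn G (S ∪ T) := by
  obtain ⟨x, hx, y, hy, hxy⟩ := h
  exact hS.union_of_adj hT hx hy hxy

theorem conn_pair {x y : V} (h : G.Adj x y) : Conn G ({x, y} : Finset V) := by
  have := (conn_singleton (G := G) y).insert (mem_singleton_self y) h.symm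
  exact this

theorem Conn.exists_path {T : Finset V} (hT : Conn G T) {x y : V} (hx : x ∈ T) (hy : y ∈ T) :
    ∃ p : G.Walk x y, p.IsPath ∧ ∀ z ∈ p.support, z ∈ T := by
  have : T ⊆ T.filter (fun z => ∃ p : G.Walk x z, ∀ w ∈ p.support, w ∈ T) := by
    refine hT.subset_of_closed (x := x) hx ?_ ?_
    · rw [mem_filter]
      exact ⟨hx, SimpleGraph.Walk.nil, by simpa using hx⟩
    · intro a ha _ b hb hab
      rw [mem_filter] at ha ⊢
      obtain ⟨_, p, hp⟩ := ha
      refine ⟨hb, p.concat hab, ?_⟩
      intro w hw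
      rw [SimpleGraph.Walk.support_concat] at hw
      simp only [List.concat_eq_append, List.mem_append, List.mem_singleton] at hw
      rcases hw with hw | hw
      · exact hp w hw
      · rw [hw]; exact hb
  obtain ⟨_, p, hp⟩ := mem_filter.mp (this hy)
  refine ⟨p.bypass, p.bypass_isPath, fun z hz => hp z (p.support_bypass_subset_support hz)⟩

theorem conn_support {x y : V} (p : G.Walk x y) : Conn G p.support.toFinset := by
  induction p with
  | nil => simpa using conn_singleton (G := G) _
  | @cons u v w h p ih =>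
    rw [SimpleGraph.Walk.support_cons, List.toFinset_cons]
    exact ih.insert (by simp) h.symm

/-- In a graph without short cycles, a vertex outside a small connected set has at most one
neighbour in it. -/
theorem NoShort.unique {g : ℕ} (hg : NoShort G g) {T : Finset V} (hT : Conn G T)
    (hc : T.card + 1 < g) {y t t' : V} (hy : y ∉ T) (ht : t ∈ T) (ht' : t' ∈ T)
    (h : G.Adj y t) (h' : G.Adj y t') : t = t' := by
  by_contra hne
  obtain ⟨p, hp, hps⟩ := hT.exists_path ht ht'
  have hyp : y ∉ p.support := fun hm => hy (hps y hm)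
  have hp2 : (p.concat h'.symm).IsPath := by
    rw [← SimpleGraph.Walk.isPath_reverse_iff, SimpleGraph.Walk.reverse_concat]
    rw [SimpleGraph.Walk.cons_isPath_iff]
    refine ⟨(SimpleGraph.Walk.isPath_reverse_iff p).mpr hp, ?_⟩
    simpa using hyp
  have hcyc : (SimpleGraph.Walk.cons h (p.concat h'.symm)).IsCycle := by
    rw [SimpleGraph.Walk.cons_isCycle_iff]
    refine ⟨hp2, ?_⟩
    rw [SimpleGraph.Walk.edges_concat]
    simp only [List.concat_eq_append, List.mem_append, List.mem_singleton, not_or]
    constructor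
    · intro hm
      exact hyp (SimpleGraph.Walk.fst_mem_support_of_mem_edges _ hm)
    · intro he
      rw [Sym2.eq_iff] at he
      rcases he with ⟨h1, h2⟩ | ⟨h1, h2⟩
      · exact hy (h1 ▸ ht')
      · exact hne h2
  have hlen := hg _ _ hcyc
  have hpl : p.length + 1 ≤ T.card := by
    have h1 : p.support.toFinset ⊆ T := fun z hz => hps z (List.mem_toFinset.mp hz)
    have h2 := card_le_card h1
    rw [List.toFinset_card_of_nodup hp.support_nodup, SimpleGraph.Walk.length_support] at h2
    exact h2
  rw [SimpleGraph.Walk.length_cons, SimpleGraph.Walk.length_concat] at hlen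
  omega

/-- the component of `s` in `W`. -/
noncomputable def comp (G : SimpleGraph V) (W : Finset V) (s : V) : Finset V :=
  W.filter fun z => ∃ C : Finset V, C ⊆ W ∧ Conn G C ∧ s ∈ C ∧ z ∈ C

theorem comp_subset (W : Finset V) (s : V) : comp G W s ⊆ W := filter_subset _ _

theorem mem_comp_self {W : Finset V} {s : V} (hs : s ∈ W) : s ∈ comp G W s := by
  rw [comp, mem_filter]
  exact ⟨hs, {s}, by simpa using hs, conn_singleton s, by simp, by simp⟩

theorem comp_closed {W : Finset V} {s a b : V} (ha : a ∈ comp G W s) (hb : b ∈ W)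
    (h : G.Adj a b) : b ∈ comp G W s := by
  rw [comp, mem_filter] at ha ⊢
  obtain ⟨_, C, hCW, hC, hs, haC⟩ := ha
  exact ⟨hb, insert b C, insert_subset hb hCW, hC.insert haC h, mem_insert_of_mem hs,
    mem_insert_self _ _⟩

theorem subset_comp {W C : Finset V} {s : V} (hCW : C ⊆ W) (hC : Conn G C) (hs : s ∈ C) :
    C ⊆ comp G W s := by
  intro z hz
  rw [comp, mem_filter]
  exact ⟨hCW hz, C, hCW, hC, hs, hz⟩

theorem comp_conn {W : Finset V} {s : V} (hs : s ∈ W) : Conn G (comp G W s) := by
  refine ⟨⟨s, mem_comp_self hs⟩, fun U hU hne hcl => ?_⟩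
  obtain ⟨w, hw⟩ := hne
  have h1 : s ∈ U := by
    have := hU hw
    rw [comp, mem_filter] at this
    obtain ⟨_, C, hCW, hC, hsC, hwC⟩ := this
    have hC' := subset_comp hCW hC hsC
    exact hC.subset_of_closed hwC hw (fun a ha _ b hb hab => hcl a ha b (hC' hb) hab) hsC
  apply Finset.Subset.antisymm hU
  intro z hz
  have := hz
  rw [comp, mem_filter] at this
  obtain ⟨_, C, hCW, hC, hsC, hzC⟩ := this
  have hC' := subset_comp hCW hC hsC
  exact hC.subset_of_closed hsC h1 (fun a ha _ b hb hab => hcl a ha b (hC' hb) hab) hzC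

theorem comp_eq_of_mem {W : Finset V} {s t : V} (hs : s ∈ W) (ht : t ∈ comp G W s) :
    comp G W t = comp G W s := by
  have h1 := comp_conn (G := G) hs
  have htW := comp_subset W s ht
  apply Finset.Subset.antisymm
  · exact subset_comp (comp_subset _ _) (comp_conn htW)
      (subset_comp (comp_subset _ _) h1 ht (mem_comp_self hs))
  · exact subset_comp (comp_subset _ _) h1 ht

/-- a connected set has a vertex (different from a given one, unless the set is a singleton)
whose removal leaves a connected set. -/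
theorem Conn.exists_removable {Q : Finset V} (hQ : Conn G Q) {s : V} (hs : s ∈ Q) :
    (Q = {s}) ∨ ∃ x ∈ Q, x ≠ s ∧ Conn G (Q.erase x) := by
  by_cases hQs : Q = {s}
  · exact Or.inl hQs
  right
  let F := Q.powerset.filter (fun C => Conn G C ∧ s ∈ C ∧ C ≠ Q)
  have hF : F.Nonempty := ⟨{s}, by
    simp only [F, mem_filter, mem_powerset]
    exact ⟨by simpa using hs, conn_singleton s, by simp, fun h => hQs h.symm⟩⟩
  obtain ⟨C, hCF, hmax⟩ := F.exists_max_image (fun C => C.card) hF
  simp only [F, mem_filter, mem_powerset] at hCF hmax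
  obtain ⟨hCQ, hC, hsC, hne⟩ := hCF
  have : ∃ x ∈ C, ∃ y ∈ Q, G.Adj x y ∧ y ∉ C := by
    by_contra hcon
    push Not at hcon
    exact hne (hQ.2 C hCQ ⟨s, hsC⟩ hcon)
  obtain ⟨x, hx, y, hy, hxy, hyC⟩ := this
  have h1 : Insert.insert y C = Q := by
    by_contra hne'
    have := hmax (Insert.insert y C) ⟨insert_subset hy hCQ, hC.insert hx hxy, mem_insert_of_mem hsC, hne'⟩
    rw [card_insert_of_notMem hyC] at this
    omega
  refine ⟨y, hy, fun h => hyC (h ▸ hsC), ?_⟩
  rw [← h1, erase_insert hyC]
  exact hC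

end Pool.Agent.Helper75.Ch
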