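import Pool.Agent.Helper75.Ch.Low

set_option autoImplicit false
set_option linter.unusedSectionVars false
set_option linter.unusedSimpArgs false

namespace Pool.Agent.Helper75.Ch

open Finset Classical

variable {V : Type*} [Fintype V] {G : SimpleGraph V}

theorem NoShort.unique_walk {g : ℕ} (hg : NoShort G g) {y t t' : V} (p : G.Walk t t')
    (hp : p.length + 2 < g) (hy : y ∉ p.support) (h : G.Adj y t) (h' : G.Adj y t') : t = t' := by
  refine hg.unique (conn_support p) ?_ (y := y) (by simpa using hy) (by simp) (by simp) h h'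
  have := List.toFinset_card_le p.support
  rw [SimpleGraph.Walk.length_support] at this
  omega

theorem NoShort.mono {g g' : ℕ} (hg : NoShort G g) (h : g' ≤ g) : NoShort G g' :=
  fun v c hc => h.trans (hg v c hc)

/-- a candidate for a gadget -/
def Cand (G : SimpleGraph V) (D r : ℕ) (P : Fin 6 → V) : Prop :=
  Function.Injective P ∧ G.Adj (P 0) (P 1) ∧ G.Adj (P 0) (P 2) ∧ G.Adj (P 0) (P 3) ∧
    G.Adj (P 1) (P 4) ∧ G.Adj (P 1) (P 5) ∧ ∀ i, Fine G D r (P i)

theorem inj6 {α : Type*} {x y a b c d : α} (h01 : x ≠ y) (h02 : x ≠ a) (h03 : x ≠ b) (h04 : x ≠ c) (h05 : x ≠ d) (h12 : y ≠ a) (h13 : y ≠ b) (h14 : y ≠ c) (h15 : y ≠ d) (h23 : a ≠ b) (h24 : a ≠ c) (h25 : a ≠ d) (h34 : b ≠ c) (h35 : b ≠ d) (h45 : c ≠ d) :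
    Function.Injective ![x, y, a, b, c, d] := by
  intro i j hij
  fin_cases i <;> fin_cases j <;>
  first
  | rfl
  | exact absurd hij h01
  | exact absurd hij.symm h01
  | exact absurd hij h02
  | exact absurd hij.symm h02
  | exact absurd hij h03
  | exact absurd hij.symm h03
  | exact absurd hij h04
  | exact absurd hij.symm h04
  | exact absurd hij h05
  | exact absurd hij.symm h05
  | exact absurd hij h12
  | exact absurd hij.symm h12
  | exact absurd hij h13
  | exact absurd hij.symm h13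
  | exact absurd hij h14
  | exact absurd hij.symm h14
  | exact absurd hij h15
  | exact absurd hij.symm h15
  | exact absurd hij h23
  | exact absurd hij.symm h23
  | exact absurd hij h24
  | exact absurd hij.symm h24
  | exact absurd hij h25
  | exact absurd hij.symm h25
  | exact absurd hij h34
  | exact absurd hij.symm h34
  | exact absurd hij h35
  | exact absurd hij.symm h35
  | exact absurd hij h45
  | exact absurd hij.symm h45

section
variable (hg : NoShort G 10)
include hg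

theorem tri {a b c : V} (h1 : G.Adj a b) (h2 : G.Adj b c) (h3 : G.Adj c a) : False := by
  have := hg.unique_walk (y := a) (SimpleGraph.Walk.cons h2 SimpleGraph.Walk.nil)
    (by simp) (by simp [h1.ne, h3.ne']) h1 h3.symm
  exact h2.ne this

theorem L1 {q t q' r : V} (h1 : G.Adj q t) (h2 : G.Adj t q') (h3 : G.Adj q r) (h4 : G.Adj r q')
    (hne : q ≠ q') : t = r := by
  refine hg.unique_walk (y := q) (SimpleGraph.Walk.cons h2
    (SimpleGraph.Walk.cons h4.symm SimpleGraph.Walk.nil)) (by simp) ?_ h1 h3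
  simp [h1.ne, hne, h3.ne]

theorem L2 {q t t' q' r r' : V} (h1 : G.Adj q t) (h2 : G.Adj t t') (h3 : G.Adj t' q')
    (k1 : G.Adj q r) (k2 : G.Adj r r') (k3 : G.Adj r' q')
    (e1 : q ≠ t') (e2 : q ≠ q') (e3 : q ≠ r') : t = r := by
  refine hg.unique_walk (y := q) (SimpleGraph.Walk.cons h2 (SimpleGraph.Walk.cons h3
    (SimpleGraph.Walk.cons k3.symm
    (SimpleGraph.Walk.cons k2.symm SimpleGraph.Walk.nil)))) (by simp) ?_ h1 k1
  simp [h1.ne, k1.ne, e1, e2, e3]

theorem L3 {q t x t' q' r y r' : V} (h1 : G.Adj q t) (h2 : G.Adj t x) (h3 : G.Adj x t')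
    (h4 : G.Adj t' q')
    (k1 : G.Adj q r) (k2 : G.Adj r y) (k3 : G.Adj y r') (k4 : G.Adj r' q')
    (e1 : q ≠ x) (e2 : q ≠ t') (e3 : q ≠ q') (e4 : q ≠ r') (e5 : q ≠ y) : t = r := by
  refine hg.unique_walk (y := q) (SimpleGraph.Walk.cons h2 (SimpleGraph.Walk.cons h3
    (SimpleGraph.Walk.cons h4 (SimpleGraph.Walk.cons k4.symm
    (SimpleGraph.Walk.cons k3.symm
    (SimpleGraph.Walk.cons k2.symm SimpleGraph.Walk.nil)))))) (by simp) ?_ h1 k1
  simp [h1.ne, k1.ne, e1, e2, e3, e4, e5]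

theorem ne_of_path4 {q t x t' q' : V} (h1 : G.Adj q t) (h2 : G.Adj t x) (h3 : G.Adj x t')
    (h4 : G.Adj t' q') (hqx : q ≠ x) (hne : t ≠ t') : q ≠ q' := by
  rintro rfl
  refine hne (hg.unique_walk (y := q) (SimpleGraph.Walk.cons h2
    (SimpleGraph.Walk.cons h3 SimpleGraph.Walk.nil)) (by simp) ?_ h1 h4.symm)
  simp [h1.ne, hqx, h4.ne']

theorem exists_cand {D r : ℕ} (hD : 2 ≤ D) (Q : Finset V)
    (hn : Q.card + 5 * (Q.card * Q.card) + (3 + 6 * D) * (NF G D r).card < Fintype.card V) :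
    ∃ P, Cand G D r P ∧ ∀ i, P i ∉ Q := by
  set T := nb G Q with hT
  set R := Finset.univ \ (Q ∪ T) with hR
  have hRQ : ∀ x ∈ R, x ∉ Q := fun x hx h => by
    rw [hR, mem_sdiff] at hx; exact hx.2 (mem_union_left _ h)
  have hRT : ∀ x ∈ R, x ∉ T := fun x hx h => by
    rw [hR, mem_sdiff] at hx; exact hx.2 (mem_union_right _ h)
  have hRn : ∀ x ∈ R, ∀ q ∈ Q, ¬ G.Adj q x := fun x hx q hq h =>
    hRT x hx (mem_nb.mpr ⟨hRQ x hx, q, hq, h⟩)
  have hmemR : ∀ x, x ∉ Q → x ∉ T → x ∈ R := fun x h1 h2 => by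
    rw [hR, mem_sdiff]; exact ⟨mem_univ _, by simp [h1, h2]⟩
  -- exceptional sets
  let QQ := Q ×ˢ Q
  let E1 : V × V → Finset V := fun p => Finset.univ.filter fun t =>
    p.1 ≠ p.2 ∧ G.Adj p.1 t ∧ G.Adj t p.2
  let E2 : V × V → Finset V := fun p => Finset.univ.filter fun t =>
    G.Adj p.1 t ∧ ∃ t', t' ∉ Q ∧ G.Adj t t' ∧ G.Adj t' p.2
  let E3 : V × V → Finset V := fun p => Finset.univ.filter fun t =>
    G.Adj p.1 t ∧ ∃ x t', x ∉ Q ∧ t' ∉ Q ∧ t ≠ t' ∧ G.Adj t x ∧ G.Adj x t' ∧ G.Adj t' p.2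
  let E4 : V × V → Finset V := fun p => Finset.univ.filter fun x =>
    x ∉ Q ∧ ∃ t t', t ∉ Q ∧ t' ∉ Q ∧ t ≠ t' ∧ G.Adj p.1 t ∧ G.Adj t x ∧ G.Adj x t' ∧ G.Adj t' p.2
  have hQQ : QQ.card = Q.card * Q.card := card_product _ _
  have c1 : (QQ.biUnion E1).card ≤ Q.card * Q.card := by
    rw [← hQQ, ← mul_one QQ.card]
    refine card_biUnion_le_card_mul _ _ _ fun p _ => card_le_one.mpr ?_
    intro a ha b hb
    simp only [E1, mem_filter, mem_univ, true_and] at ha hb
    exact L1 hg ha.2.1 ha.2.2 hb.2.1 hb.2.2 ha.1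
  have c2 : (QQ.biUnion E2).card ≤ Q.card * Q.card := by
    rw [← hQQ, ← mul_one QQ.card]
    refine card_biUnion_le_card_mul _ _ _ fun p hp => card_le_one.mpr ?_
    obtain ⟨hp1, hp2⟩ := mem_product.mp hp
    intro a ha b hb
    simp only [E2, mem_filter, mem_univ, true_and] at ha hb
    obtain ⟨h1, a', ha', h2, h3⟩ := ha
    obtain ⟨k1, b', hb', k2, k3⟩ := hb
    have e1 : p.1 ≠ a' := fun h => ha' (h ▸ hp1)
    have e3 : p.1 ≠ b' := fun h => hb' (h ▸ hp1)
    have e2 : p.1 ≠ p.2 := fun h => tri hg h1 h2 (h ▸ h3)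
    exact L2 hg h1 h2 h3 k1 k2 k3 e1 e2 e3
  have c3 : (QQ.biUnion E3).card ≤ Q.card * Q.card := by
    rw [← hQQ, ← mul_one QQ.card]
    refine card_biUnion_le_card_mul _ _ _ fun p hp => card_le_one.mpr ?_
    obtain ⟨hp1, hp2⟩ := mem_product.mp hp
    intro a ha b hb
    simp only [E3, mem_filter, mem_univ, true_and] at ha hb
    obtain ⟨h1, x, t', hx, ht', hne, h2, h3, h4⟩ := ha
    obtain ⟨k1, y, r', hy, hr', hne', k2, k3, k4⟩ := hb
    have e1 : p.1 ≠ x := fun h => hx (h ▸ hp1)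
    have e2 : p.1 ≠ t' := fun h => ht' (h ▸ hp1)
    have e4 : p.1 ≠ r' := fun h => hr' (h ▸ hp1)
    have e5 : p.1 ≠ y := fun h => hy (h ▸ hp1)
    exact L3 hg h1 h2 h3 h4 k1 k2 k3 k4 e1 e2 (ne_of_path4 hg h1 h2 h3 h4 e1 hne) e4 e5
  have c4 : (QQ.biUnion E4).card ≤ Q.card * Q.card := by
    rw [← hQQ, ← mul_one QQ.card]
    refine card_biUnion_le_card_mul _ _ _ fun p hp => card_le_one.mpr ?_
    obtain ⟨hp1, hp2⟩ := mem_product.mp hp
    intro x hx y hy
    simp only [E4, mem_filter, mem_univ, true_and] at hx hy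
    obtain ⟨hx, t, t', ht, ht', hne, h1, h2, h3, h4⟩ := hx
    obtain ⟨hy, r, r', hr, hr', hne', k1, k2, k3, k4⟩ := hy
    have e1 : p.1 ≠ x := fun h => hx (h ▸ hp1)
    have e2 : p.1 ≠ t' := fun h => ht' (h ▸ hp1)
    have e4 : p.1 ≠ r' := fun h => hr' (h ▸ hp1)
    have e5 : p.1 ≠ y := fun h => hy (h ▸ hp1)
    have f1 : p.2 ≠ x := fun h => hx (h ▸ hp2)
    have f2 : p.2 ≠ t := fun h => ht (h ▸ hp2)
    have f4 : p.2 ≠ r := fun h => hr (h ▸ hp2)
    have f5 : p.2 ≠ y := fun h => hy (h ▸ hp2)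
    have ne := ne_of_path4 hg h1 h2 h3 h4 e1 hne
    have r1 := L3 hg h1 h2 h3 h4 k1 k2 k3 k4 e1 e2 ne e4 e5
    have r2 := L3 hg h4.symm h3.symm h2.symm h1.symm k4.symm k3.symm k2.symm k1.symm
      f1 f2 ne.symm f4 f5
    subst r1 r2
    exact L1 hg h2 h3 k2 k3 hne
  -- the set T is not much larger than R
  have hTR : (T \ (NF G D r ∪ (QQ.biUnion E1 ∪ (QQ.biUnion E2 ∪ QQ.biUnion E3)))).card ≤
      R.card := by
    have hex : ∀ t ∈ T \ (NF G D r ∪ (QQ.biUnion E1 ∪ (QQ.biUnion E2 ∪ QQ.biUnion E3))),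
        ∃ x ∈ R, G.Adj t x := by
      intro t ht
      rw [mem_sdiff] at ht
      simp only [mem_union, not_or] at ht
      obtain ⟨htT, hNF, n1, n2, n3⟩ := ht
      obtain ⟨htQ, q, hq, hqt⟩ := mem_nb.mp htT
      have hfine : Fine G D r t := by
        by_contra h; exact hNF (mem_NF.mpr h)
      have hdeg := hfine.deg
      by_contra hcon
      push Not at hcon
      -- all neighbours are in Q, and equal
      have hsub : nbv G t ⊆ {q} := by
        intro z hz
        rw [mem_nbv] at hz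
        have hzR : z ∉ R := fun h => hcon z h hz
        by_cases hzQ : z ∈ Q
        · by_contra hzq
          rw [mem_singleton] at hzq
          apply n1
          rw [mem_biUnion]
          refine ⟨(q, z), mem_product.mpr ⟨hq, hzQ⟩, ?_⟩
          simp only [E1, mem_filter, mem_univ, true_and]
          exact ⟨fun h => hzq h.symm, hqt, hz⟩
        · have hzT : z ∈ T := by
            by_contra h; exact hzR (hmemR z hzQ h)
          obtain ⟨_, q', hq', hq'z⟩ := mem_nb.mp hzT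
          exfalso
          apply n2
          rw [mem_biUnion]
          refine ⟨(q, q'), mem_product.mpr ⟨hq, hq'⟩, ?_⟩
          simp only [E2, mem_filter, mem_univ, true_and]
          exact ⟨hqt, z, hzQ, hz, hq'z.symm⟩
      have := card_le_card hsub
      rw [card_singleton] at this
      omega
    choose! f hf using hex
    refine card_le_card_of_injOn f (fun t ht => (hf t ht).1) ?_
    intro t ht t' ht' heq
    by_contra hne
    have h1 := hf t ht
    have h2 := hf t' ht'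
    rw [mem_coe, mem_sdiff] at ht ht'
    simp only [mem_union, not_or] at ht ht'
    obtain ⟨htT, hNF, n1, n2, n3⟩ := ht
    obtain ⟨htT', _⟩ := ht'
    obtain ⟨htQ, q, hq, hqt⟩ := mem_nb.mp htT
    obtain ⟨htQ', q', hq', hqt'⟩ := mem_nb.mp htT'
    apply n3
    rw [mem_biUnion]
    refine ⟨(q, q'), mem_product.mpr ⟨hq, hq'⟩, ?_⟩
    simp only [E3, mem_filter, mem_univ, true_and]
    refine ⟨hqt, f t, t', hRQ _ h1.1, htQ', hne, h1.2, ?_, hqt'.symm⟩
    have h3 := h2.2
    rw [← heq] at h3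
    exact h3.symm
  have hTcard : T.card ≤ R.card + (NF G D r).card + 3 * (Q.card * Q.card) := by
    have h1 : T.card ≤ (T \ (NF G D r ∪ (QQ.biUnion E1 ∪ (QQ.biUnion E2 ∪ QQ.biUnion E3)))).card
        + (NF G D r ∪ (QQ.biUnion E1 ∪ (QQ.biUnion E2 ∪ QQ.biUnion E3))).card := by
      exact card_le_card_sdiff_add_card
    have h2 : (NF G D r ∪ (QQ.biUnion E1 ∪ (QQ.biUnion E2 ∪ QQ.biUnion E3))).card ≤
        (NF G D r).card + ((QQ.biUnion E1).card + ((QQ.biUnion E2).card +
          (QQ.biUnion E3).card)) := by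
      refine (card_union_le _ _).trans ?_
      gcongr
      refine (card_union_le _ _).trans ?_
      gcongr
      exact (card_union_le _ _)
    omega
  have hdegle : ∀ z ∈ NF G D r, (nbv G z).card ≤ D := fun z hz => deg_NF hD hz
  have hcardV : Fintype.card V = Q.card + T.card + R.card := by
    have h1 : Disjoint Q T := by
      rw [Finset.disjoint_right]
      intro x hx
      exact (mem_nb.mp hx).1
    have h2 : (Q ∪ T).card = Q.card + T.card := card_union_of_disjoint h1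
    have h3 : R.card + (Q ∪ T).card = Fintype.card V := by
      rw [hR, card_sdiff_add_card_eq_card (subset_univ _), card_univ]
    omega
  set F := Finset.univ \ NF G D r with hF
  have hmemF : ∀ x, x ∈ F ↔ Fine G D r x := by
    intro x
    simp [hF, mem_NF]
  set B := R.filter (fun y => Fine G D r y ∧ (nbv G y ∩ F).card ≤ 2) with hB
  have hBcard : B.card ≤ (NF G D r).card * D := by
    have h1 : B ⊆ (NF G D r).biUnion fun z => nbv G z := by
      intro y hy
      rw [hB, mem_filter] at hy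
      obtain ⟨_, hfy, hy2⟩ := hy
      have h3 := hfy.deg
      have : ¬ nbv G y ⊆ F := by
        intro hsub
        rw [inter_eq_left.mpr hsub] at hy2
        omega
      rw [Finset.not_subset] at this
      obtain ⟨z, hz, hzF⟩ := this
      rw [mem_biUnion]
      refine ⟨z, ?_, ?_⟩
      · rw [mem_NF]
        intro h
        exact hzF ((hmemF z).mpr h)
      · rw [mem_nbv] at hz ⊢
        exact hz.symm
    refine (card_le_card h1).trans ?_
    exact card_biUnion_le_card_mul _ _ _ hdegle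
  set Z1 := B.biUnion (fun y => nbv G y ∩ F) with hZ1
  have hZ1card : Z1.card ≤ B.card * 2 := by
    refine card_biUnion_le_card_mul _ _ _ ?_
    intro y hy
    rw [hB, mem_filter] at hy
    exact hy.2.2
  have hexx : ∃ x ∈ R, x ∉ NF G D r ∪ (B ∪ (Z1 ∪ QQ.biUnion E4)) := by
    by_contra hcon
    push Not at hcon
    have h1 := card_le_card (show R ⊆ NF G D r ∪ (B ∪ (Z1 ∪ QQ.biUnion E4)) from hcon)
    have h2 : (NF G D r ∪ (B ∪ (Z1 ∪ QQ.biUnion E4))).card ≤
        (NF G D r).card + (B.card + (Z1.card + (QQ.biUnion E4).card)) := by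
      refine (card_union_le _ _).trans ?_
      gcongr
      refine (card_union_le _ _).trans ?_
      gcongr
      exact (card_union_le _ _)
    have h3 : R.card ≤ (NF G D r).card + 3 * ((NF G D r).card * D) + Q.card * Q.card := by
      omega
    have h4 : Fintype.card V ≤ Q.card + 5 * (Q.card * Q.card) +
        (3 * (NF G D r).card + 6 * ((NF G D r).card * D)) := by omega
    have h5 : (3 + 6 * D) * (NF G D r).card =
        3 * (NF G D r).card + 6 * ((NF G D r).card * D) := by ring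
    omega
  obtain ⟨x, hxR, hx⟩ := hexx
  simp only [mem_union, not_or] at hx
  obtain ⟨hxNF, hxB, hxZ, hxE⟩ := hx
  have hxF : Fine G D r x := by
    by_contra h; exact hxNF (mem_NF.mpr h)
  have hx3 : 3 ≤ (nbv G x ∩ F).card := by
    by_contra h
    apply hxB
    rw [hB, mem_filter]
    exact ⟨hxR, hxF, by omega⟩
  -- a neighbour in `F ∩ R`
  have hy : ∃ y ∈ nbv G x ∩ F, y ∈ R := by
    by_contra hcon
    push Not at hcon
    have hTn : ∀ y ∈ nbv G x ∩ F, y ∈ T := by
      intro y hy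
      by_contra hyT
      have hyx := mem_nbv.mp (mem_inter.mp hy).1
      refine hcon y hy (hmemR y ?_ hyT)
      intro hyQ
      exact hRn x hxR y hyQ hyx.symm
    obtain ⟨t, ht, t', ht', hne⟩ := one_lt_card.mp (by omega : 1 < (nbv G x ∩ F).card)
    obtain ⟨htQ, q, hq, hqt⟩ := mem_nb.mp (hTn t ht)
    obtain ⟨htQ', q', hq', hqt'⟩ := mem_nb.mp (hTn t' ht')
    apply hxE
    rw [mem_biUnion]
    refine ⟨(q, q'), mem_product.mpr ⟨hq, hq'⟩, ?_⟩
    simp only [E4, mem_filter, mem_univ, true_and]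
    exact ⟨hRQ x hxR, t, t', htQ, htQ', hne, hqt, (mem_nbv.mp (mem_inter.mp ht).1).symm,
      mem_nbv.mp (mem_inter.mp ht').1, hqt'.symm⟩
  obtain ⟨y, hyF', hyR⟩ := hy
  have hxy : G.Adj x y := mem_nbv.mp (mem_inter.mp hyF').1
  have hyF : Fine G D r y := (hmemF y).mp (mem_inter.mp hyF').2
  have hy3 : 3 ≤ (nbv G y ∩ F).card := by
    by_contra h
    apply hxZ
    rw [hZ1, mem_biUnion]
    refine ⟨y, ?_, ?_⟩
    · rw [hB, mem_filter]
      exact ⟨hyR, hyF, by omega⟩
    · rw [mem_inter, mem_nbv]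
      exact ⟨hxy.symm, (hmemF x).mpr hxF⟩
  have hab : 1 < ((nbv G x ∩ F).erase y).card := by
    rw [card_erase_of_mem hyF']; omega
  have hcd : 1 < ((nbv G y ∩ F).erase x).card := by
    rw [card_erase_of_mem (by rw [mem_inter, mem_nbv]; exact ⟨hxy.symm, (hmemF x).mpr hxF⟩)]
    omega
  obtain ⟨a, ha, b, hb, hab'⟩ := one_lt_card.mp hab
  obtain ⟨c, hc, d, hd, hcd'⟩ := one_lt_card.mp hcd
  simp only [mem_erase, mem_inter, mem_nbv, hmemF] at ha hb hc hd
  have htri : ∀ z w, G.Adj x z → G.Adj y w → z ≠ w := by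
    rintro z w h1 h2 rfl
    exact tri hg hxy h2 h1.symm
  refine ⟨![x, y, a, b, c, d], ⟨?_, ?_, ?_, ?_, ?_, ?_, ?_⟩, ?_⟩
  · exact inj6 hxy.ne ha.2.1.ne hb.2.1.ne (Ne.symm hc.1) (Ne.symm hd.1) (Ne.symm ha.1)
      (Ne.symm hb.1) hc.2.1.ne hd.2.1.ne hab' (htri _ _ ha.2.1 hc.2.1) (htri _ _ ha.2.1 hd.2.1)
      (htri _ _ hb.2.1 hc.2.1) (htri _ _ hb.2.1 hd.2.1) hcd'
  · exact hxy
  · exact ha.2.1
  · exact hb.2.1
  · exact hc.2.1
  · exact hd.2.1
  · intro i
    fin_cases i
    · exact hxF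
    · exact hyF
    · exact ha.2.2
    · exact hb.2.2
    · exact hc.2.2
    · exact hd.2.2
  · intro i
    fin_cases i
    · exact hRQ x hxR
    · exact hRQ y hyR
    · exact fun h => hRn x hxR a h ha.2.1.symm
    · exact fun h => hRn x hxR b h hb.2.1.symm
    · exact fun h => hRn y hyR c h hc.2.1.symm
    · exact fun h => hRn y hyR d h hd.2.1.symm

end

end Pool.Agent.Helper75.Ch
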