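import Mathlib

set_option autoImplicit false

namespace Pool.Agent.Helper75.Ch

open Finset Classical

variable {V : Type*} [Fintype V]

/-- Outer vertex boundary of `W`. -/
noncomputable def nb (G : SimpleGraph V) (W : Finset V) : Finset V :=
  Finset.univ.filter fun y => y ∉ W ∧ ∃ x ∈ W, G.Adj x y

/-- Neighbours of a vertex as a finset. -/
noncomputable def nbv (G : SimpleGraph V) (x : V) : Finset V :=
  Finset.univ.filter fun y => G.Adj x y

/-- `T` is a nonempty connected set of vertices: no nonempty proper subset of `T` is closed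
under adjacency inside `T`. -/
def Conn (G : SimpleGraph V) (T : Finset V) : Prop :=
  T.Nonempty ∧ ∀ W : Finset V, W ⊆ T → W.Nonempty →
    (∀ x ∈ W, ∀ y ∈ T, G.Adj x y → y ∈ W) → W = T

/-- There is an edge between `S` and `T`. -/
def Touch (G : SimpleGraph V) (S T : Finset V) : Prop := ∃ x ∈ S, ∃ y ∈ T, G.Adj x y

/-- total deficiency of the induced subgraph on `X`. -/
noncomputable def dfc (G : SimpleGraph V) (X : Finset V) : ℕ :=
  ∑ v ∈ X, (3 - (nbv G v ∩ X).card)

noncomputable def tau (m : ℕ) : ℝ := 1 / (1 + Real.log m)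

/-- potential-minimal graphs -/
def PM (G : SimpleGraph V) : Prop :=
  (dfc G (Finset.univ : Finset V) : ℝ) ≤ tau (Fintype.card V) * Fintype.card V ∧
  ∀ X : Finset V, X.Nonempty → X ≠ Finset.univ → tau X.card * X.card < (dfc G X : ℝ)

/-- no cycle of length `< g`. -/
def NoShort (G : SimpleGraph V) (g : ℕ) : Prop :=
  ∀ (v : V) (c : G.Walk v v), c.IsCycle → g ≤ c.length

end Pool.Agent.Helper75.Ch
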