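import Pool.Agent.Helper75.Ch.Cand

set_option autoImplicit false
set_option linter.unusedSectionVars false
set_option linter.unusedSimpArgs false

namespace Pool.Agent.Helper75.Ch

open Finset Classical

/-- the sunflower lemma for indexed families -/
theorem sunflower (c p : ℕ) : ∃ N : ℕ, ∀ {α ι : Type} (s : Finset ι) (R : ι → Finset α),
    (∀ i ∈ s, (R i).card ≤ c) → N ≤ s.card →
    ∃ t ⊆ s, p ≤ t.card ∧ ∃ Z : Finset α, ∀ i ∈ t, ∀ j ∈ t, i ≠ j → R i ∩ R j = Z := by
  induction c with
  | zero =>
    refine ⟨p, fun s R hR hs => ⟨s, Subset.refl _, hs, ∅, fun i hi j hj _ => ?_⟩⟩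
    have : R i = ∅ := card_eq_zero.mp (Nat.le_zero.mp (hR i hi))
    rw [this, empty_inter]
  | succ c ih =>
    obtain ⟨N, hN⟩ := ih
    refine ⟨p + p * (c + 1) * N + 1, fun {α ι} s R hR hs => ?_⟩
    -- maximal disjoint subfamily
    let F := s.powerset.filter (fun t => ∀ i ∈ t, ∀ j ∈ t, i ≠ j → Disjoint (R i) (R j))
    have hF : F.Nonempty := ⟨∅, by simp [F]⟩
    obtain ⟨t, htF, hmax⟩ := F.exists_max_image (fun t => t.card) hF
    simp only [F, mem_filter, mem_powerset] at htF hmax
    obtain ⟨hts, hdis⟩ := htF
    by_cases hp : p ≤ t.card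
    · refine ⟨t, hts, hp, ∅, fun i hi j hj hij => ?_⟩
      exact disjoint_iff_inter_eq_empty.mp (hdis i hi j hj hij)
    push Not at hp
    let Y := t.biUnion R
    have hY : Y.card ≤ p * (c + 1) := by
      refine (card_biUnion_le_card_mul t R (c + 1) (fun i hi => hR i (hts hi))).trans ?_
      gcongr
    have hmeet : ∀ i ∈ s \ t, ∃ y ∈ Y, y ∈ R i := by
      intro i hi
      rw [mem_sdiff] at hi
      by_contra hcon
      push Not at hcon
      have := hmax (insert i t) ⟨insert_subset hi.1 hts, by
        intro a ha b hb hab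
        have key : ∀ b ∈ t, Disjoint (R i) (R b) := by
          intro b hb
          rw [Finset.disjoint_left]
          intro y hy hyb
          exact hcon y (mem_biUnion.mpr ⟨b, hb, hyb⟩) hy
        rcases mem_insert.mp ha with h1 | h1 <;> rcases mem_insert.mp hb with h2 | h2
        · exact absurd (h1.trans h2.symm) hab
        · subst h1; exact key b h2
        · subst h2; exact (key a h1).symm
        · exact hdis a h1 b h2 hab⟩
      rw [card_insert_of_notMem hi.2] at this
      omega
    have hcard : (s \ t).card ≥ p * (c + 1) * N + 1 := by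
      have := card_le_card_sdiff_add_card (s := s) (t := t)
      omega
    haveI : Nonempty α := by
      obtain ⟨i, hi⟩ := card_pos.mp (show 0 < (s \ t).card by omega)
      obtain ⟨y, _, _⟩ := hmeet i hi
      exact ⟨y⟩
    choose! f hf using hmeet
    obtain ⟨y, hyY, hy⟩ : ∃ y ∈ Y, N < ((s \ t).filter (fun i => f i = y)).card := by
      refine exists_lt_card_fiber_of_mul_lt_card_of_maps_to (fun i hi => (hf i hi).1) ?_
      calc Y.card * N ≤ p * (c + 1) * N := by gcongr
        _ < _ := by omega
    set s' := (s \ t).filter (fun i => f i = y) with hs'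
    have hys' : ∀ i ∈ s', y ∈ R i := by
      intro i hi
      rw [hs', mem_filter] at hi
      rw [← hi.2]
      exact (hf i hi.1).2
    obtain ⟨t', ht's, hpt', Z, hZ⟩ := hN s' (fun i => (R i).erase y) (fun i hi => by
      have h1 : i ∈ s := by
        rw [hs', mem_filter, mem_sdiff] at hi
        exact hi.1.1
      rw [card_erase_of_mem (hys' i hi)]
      have := hR i h1
      omega) hy.le
    refine ⟨t', fun i hi => ?_, hpt', insert y Z, fun i hi j hj hij => ?_⟩
    · have := ht's hi
      rw [hs', mem_filter, mem_sdiff] at this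
      exact this.1.1
    · rw [← hZ i hi j hj hij]
      ext z
      simp only [mem_inter, mem_insert, mem_erase]
      constructor
      · rintro ⟨h1, h2⟩
        by_cases hz : z = y
        · exact Or.inl hz
        · exact Or.inr ⟨⟨hz, h1⟩, hz, h2⟩
      · rintro (h | ⟨⟨_, h1⟩, _, h2⟩)
        · subst h
          exact ⟨hys' i (ht's hi), hys' j (ht's hj)⟩
        · exact ⟨h1, h2⟩

variable {V : Type*} [Fintype V] {G : SimpleGraph V}

theorem exists_family (hg : NoShort G 10) {D r : ℕ} (hD : 2 ≤ D) (N : ℕ)
    (hn : 6 * N + 5 * (6 * N * (6 * N)) + (3 + 6 * D) * (NF G D r).card < Fintype.card V) :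
    ∃ P : ℕ → Fin 6 → V, (∀ i < N, Cand G D r (P i)) ∧
      ∀ i < N, ∀ j < N, i ≠ j → ∀ a b, P i a ≠ P j b := by
  have key : ∀ m ≤ N, ∃ P : ℕ → Fin 6 → V, (∀ i < m, Cand G D r (P i)) ∧
      ∀ i < m, ∀ j < m, i ≠ j → ∀ a b, P i a ≠ P j b := by
    intro m
    induction m with
    | zero =>
      intro _
      have : 0 < Fintype.card V := by omega
      obtain ⟨v⟩ := Fintype.card_pos_iff.mp this
      exact ⟨fun _ _ => v, by simp, by simp⟩
    | succ m ih =>
      intro hm
      obtain ⟨P, hP, hdis⟩ := ih (by omega)
      let Q := (Finset.range m).biUnion fun i => Finset.univ.image (P i)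
      have hQ : Q.card ≤ 6 * N := by
        have h1 : Q.card ≤ (Finset.range m).card * 6 := by
          refine card_biUnion_le_card_mul _ _ _ fun i _ => ?_
          refine card_image_le.trans ?_
          simp
        rw [card_range] at h1
        omega
      obtain ⟨P', hP', hQ'⟩ := exists_cand (r := r) hg hD Q (by
        have : Q.card * Q.card ≤ 6 * N * (6 * N) := Nat.mul_le_mul hQ hQ
        omega)
      have hnot : ∀ i < m, ∀ a b, P i a ≠ P' b := by
        intro i hi a b h
        apply hQ' b
        rw [← h]
        exact mem_biUnion.mpr ⟨i, mem_range.mpr hi, mem_image.mpr ⟨a, mem_univ _, rfl⟩⟩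
      refine ⟨fun i => if i < m then P i else P', ?_, ?_⟩
      · intro i hi
        by_cases h : i < m
        · simp only [h, if_true]; exact hP i h
        · simp only [h, if_false]; exact hP'
      · intro i hi j hj hij a b
        by_cases h : i < m <;> by_cases h' : j < m
        · simp only [h, h', if_true]; exact hdis i h j h' hij a b
        · simp only [h, h', if_true, if_false]; exact hnot i h a b
        · simp only [h, h', if_true, if_false]; exact fun e => hnot j h' b a e.symm
        · omega
  exact key N le_rfl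

end Pool.Agent.Helper75.Ch
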