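import Pool.Agent.Helper75.Ch.Bad
import Pool.Agent.Helper92.Ch.T4

set_option autoImplicit false
set_option linter.unusedSectionVars false
set_option linter.unusedSimpArgs false

namespace Pool.Agent.Helper75.Ch

open Finset Classical

/-- numerical threshold -/
theorem eventually_small (A B : ℕ) : ∃ n0 : ℕ, ∀ n : ℕ, n0 ≤ n → 0 < n ∧
    (A : ℝ) * (tau n * n) + B < n := by
  have h1 : Filter.Tendsto (fun n : ℕ => (1 + Real.log (n : ℝ))) Filter.atTop Filter.atTop :=
    Filter.tendsto_atTop_add_const_left _ _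
      (Real.tendsto_log_atTop.comp tendsto_natCast_atTop_atTop)
  have h2 := (h1.eventually_ge_atTop (2 * (A : ℝ) + 1)).and
    (Filter.eventually_gt_atTop (2 * B + 1))
  obtain ⟨n0, hn0⟩ := Filter.eventually_atTop.mp h2
  refine ⟨n0, fun n hn => ?_⟩
  obtain ⟨h3, h4⟩ := hn0 n hn
  have hn : 0 < n := by omega
  refine ⟨hn, ?_⟩
  have hnr : (0 : ℝ) < n := by exact_mod_cast hn
  have hA : (0 : ℝ) ≤ A := Nat.cast_nonneg _
  have hB : (2 : ℝ) * B + 1 < n := by exact_mod_cast h4
  have h5 : (A : ℝ) * tau n ≤ 1 / 2 := by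
    rw [tau, mul_one_div, div_le_div_iff₀ (by linarith) (by norm_num)]
    linarith
  have h6 : (A : ℝ) * (tau n * n) ≤ 1 / 2 * n := by
    rw [← mul_assoc]
    exact mul_le_mul_of_nonneg_right h5 hnr.le
  linarith

variable {V : Type} [Fintype V] {G : SimpleGraph V}

/-- the set which has to be large -/
noncomputable def outer (G : SimpleGraph V) {K : ℕ} (P : Fin K → Fin 6 → V) (W : Finset V) :
    Finset V :=
  Finset.univ.filter fun x => x ∉ W ∧ (∀ i, x ≠ P i 0 ∧ x ≠ P i 1) ∧
    ((∃ w ∈ W, G.Adj w x) ∨ ∃ i, x = P i 2 ∨ x = P i 3 ∨ x = P i 4 ∨ x = P i 5)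

theorem select_gadgets {c C K D N : ℕ} (hg : NoShort G (2 * c + 30)) (hD : D = 3 * C + 6 * K + 3)
    (hpm : ∀ W Z : Finset V, (W ∪ nb G W).card ≤ 3 * C + 3 * C * D →
      (nb G W \ Z).card ≤ 15 →
      (∀ z ∈ Z, z ∈ nb G W → 3 ≤ (nbv G z ∩ W).card ∧ 3 ≤ (nbv G z \ W).card) →
      (W ∪ nb G W).card ≤ c)
    (hsun : ∀ (s : Finset ℕ) (R : ℕ → Finset V),
      (∀ i ∈ s, (R i).card ≤ 6 + (4 * (D + 1) ^ C + 4 * (D + 1) ^ C * D)) → N ≤ s.card →
      ∃ t ⊆ s, K + 2 * 2 ^ (6 + (4 * (D + 1) ^ C + 4 * (D + 1) ^ C * D)) + 1 +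
          (6 + (4 * (D + 1) ^ C + 4 * (D + 1) ^ C * D)) + (D + 1) ^ (C + 1) + 2 ≤ t.card ∧
        ∃ Z : Finset V, ∀ i ∈ t, ∀ j ∈ t, i ≠ j → R i ∩ R j = Z)
    (hn : 6 * N + 5 * (6 * N * (6 * N)) + (3 + 6 * D) * (NF G D C).card < Fintype.card V) :
    ∃ P : Fin K → Fin 6 → V, Function.Injective (fun x : Fin K × Fin 6 => P x.1 x.2) ∧
      (∀ i, G.Adj (P i 0) (P i 1) ∧ G.Adj (P i 0) (P i 2) ∧ G.Adj (P i 0) (P i 3) ∧
        G.Adj (P i 1) (P i 4) ∧ G.Adj (P i 1) (P i 5)) ∧
      ∀ W : Finset V, (∀ i, P i 0 ∉ W ∧ P i 1 ∉ W) → W.card ≤ C →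
        4 * K ≤ (outer G P W).card := by
  set c3 := 6 + (4 * (D + 1) ^ C + 4 * (D + 1) ^ C * D) with hc3
  obtain ⟨P, hP, hPdis⟩ := exists_family (hg.mono (by omega)) (show 2 ≤ D by omega) N hn
  obtain ⟨t, htN, htcard, Z, hZ⟩ := hsun (Finset.range N) (fun i => Reg G D C (P i))
    (fun i _ => card_Reg D C (P i)) (by simp)
  have htlt : ∀ i ∈ t, i < N := fun i hi => mem_range.mp (htN hi)
  have hdisj : ∀ i ∈ t, ∀ j ∈ t, ∀ a b, P i a = P j b → i = j := by
    intro i hi j hj a b h
    by_contra hne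
    exact hPdis i (htlt i hi) j (htlt j hj) hne a b h
  -- the kernel is small
  have hZc : Z.card ≤ c3 := by
    obtain ⟨i, hi, j, hj, hij⟩ := one_lt_card.mp (show 1 < t.card by omega)
    rw [← hZ i hi j hj hij]
    exact (card_le_card inter_subset_left).trans (card_Reg D C (P i))
  have hZReg : ∀ i ∈ t, Z ⊆ Reg G D C (P i) := by
    intro i hi
    have : ∃ j ∈ t, i ≠ j := by
      by_contra hcon
      push Not at hcon
      have h1 : t ⊆ {i} := fun j hj => by simp [hcon j hj]
      have := card_le_card h1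
      rw [card_singleton] at this
      omega
    obtain ⟨j, hj, hij⟩ := this
    rw [← hZ i hi j hj hij]
    exact inter_subset_left
  -- kernel vertices have large degree
  have hZdeg : ∀ z ∈ Z, D < (nbv G z).card := by
    intro z hz
    by_contra hcon
    push Not at hcon
    have key : ∀ i ∈ t, ∃ a, P i a ∈ ball G D (C + 1) z := by
      intro i hi
      have h1 := hZReg i hi hz
      rw [Reg, mem_union, mem_union, mem_biUnion] at h1
      have hL : ∀ y ∈ Lreg G D C (P i), ∃ a, y ∈ ball G D C (P i a) := by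
        intro y hy
        rw [Lreg, mem_filter, mem_biUnion] at hy
        obtain ⟨⟨k, _, hk⟩, _⟩ := hy
        obtain ⟨a, _, ha⟩ := mem_image.mp (sd_mem_im (P i) k)
        exact ⟨a, ha ▸ hk⟩
      rcases h1 with h1 | h1 | ⟨y, hy, hyz⟩
      · obtain ⟨a, _, ha⟩ := mem_image.mp h1
        exact ⟨a, ha ▸ mem_ball_self _ _ _⟩
      · obtain ⟨a, ha⟩ := hL z h1
        exact ⟨a, ball_mono (Nat.le_succ C) (ball_symm ha)⟩
      · obtain ⟨a, ha⟩ := hL y hy
        refine ⟨a, ball_symm (ball_step ha ⟨mem_nbv.mp hyz, ?_, hcon⟩)⟩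
        rw [Lreg, mem_filter] at hy
        exact hy.2
    choose! a ha using key
    have h1 : t.card ≤ (ball G D (C + 1) z).card := by
      refine card_le_card_of_injOn (fun i => P i (a i)) ha ?_
      intro i hi j hj hij
      exact hdisj i hi j hj _ _ hij
    have := card_ball (G := G) D (C + 1) z
    omega
  -- gadgets avoiding the kernel
  set I1 := t.filter (fun i => ∀ a, P i a ∉ Z) with hI1
  have hI1card : t.card ≤ I1.card + c3 := by
    have h1 : I1.card + (t.filter (fun i => ¬ ∀ a, P i a ∉ Z)).card = t.card := by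
      rw [hI1]
      exact card_filter_add_card_filter_not (s := t) (fun i => ∀ a, P i a ∉ Z)
    have h2 : (t.filter (fun i => ¬ ∀ a, P i a ∉ Z)).card ≤ Z.card := by
      have key : ∀ i ∈ t.filter (fun i => ¬ ∀ a, P i a ∉ Z), ∃ a, P i a ∈ Z := by
        intro i hi
        have := (mem_filter.mp hi).2
        push Not at this
        exact this
      choose! a ha using key
      refine card_le_card_of_injOn (fun i => P i (a i)) ha ?_
      intro i hi j hj hij
      exact hdisj i (mem_filter.mp hi).1 j (mem_filter.mp hj).1 _ _ hij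
    omega
  -- the bad gadgets
  set B := I1.filter (fun i => ∃ W, BadW G D C (P i) Z W) with hB
  have hBcard : B.card ≤ 2 * 2 ^ c3 := by
    by_contra hcon
    push Not at hcon
    have hex : ∀ i ∈ B, ∃ W, BadW G D C (P i) Z W := fun i hi => (mem_filter.mp hi).2
    choose! W hW using hex
    obtain ⟨pat, hpat, hfib⟩ : ∃ y ∈ Z.powerset,
        2 < (B.filter (fun i => nb G (W i) ∩ Z = y)).card := by
      refine exists_lt_card_fiber_of_mul_lt_card_of_maps_to
        (fun i hi => mem_powerset.mpr inter_subset_right) ?_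
      rw [card_powerset]
      have : 2 ^ Z.card ≤ 2 ^ c3 := Nat.pow_le_pow_right (by norm_num) hZc
      omega
    obtain ⟨i, j, k, hi, hj, hk, hij, hik, hjk⟩ := two_lt_card_iff.mp hfib
    rw [mem_filter] at hi hj hk
    let e : Fin 3 → ℕ := ![i, j, k]
    have heB : ∀ m, e m ∈ B := by
      intro m; fin_cases m
      · exact hi.1
      · exact hj.1
      · exact hk.1
    have het : ∀ m, e m ∈ t := fun m => (mem_filter.mp (mem_filter.mp (heB m)).1).1
    have hepat : ∀ m, nb G (W (e m)) ∩ Z = pat := by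
      intro m; fin_cases m
      · exact hi.2
      · exact hj.2
      · exact hk.2
    have heinj : Function.Injective e := by
      intro m m' h
      fin_cases m <;> fin_cases m' <;>
        first
        | rfl
        | exact absurd h hij
        | exact absurd h.symm hij
        | exact absurd h hik
        | exact absurd h.symm hik
        | exact absurd h hjk
        | exact absurd h.symm hjk
    refine three_bad hg (by omega) hpm (fun m => P (e m)) Z (fun m => W (e m))
      (fun m => hP _ (htlt _ (het m))) ?_ ?_ hZdeg (fun m => hW _ (heB m)) ?_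
    · intro m a
      exact (mem_filter.mp (mem_filter.mp (heB m)).1).2 a
    · intro m m' hmm x hx hx'
      rw [← hZ _ (het m) _ (het m') (fun h => hmm (heinj h))]
      exact mem_inter.mpr ⟨hx, hx'⟩
    · intro m m'
      rw [hepat m, hepat m']
  have hgood : K ≤ (I1 \ B).card := by
    have := card_le_card_sdiff_add_card (s := I1) (t := B)
    omega
  obtain ⟨J, hJs, hJc⟩ := exists_subset_card_eq hgood
  let e : Fin K → ℕ := fun k => J.orderEmbOfFin hJc k
  have heJ : ∀ k, e k ∈ J := fun k => J.orderEmbOfFin_mem hJc k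
  have heinj : Function.Injective e := (J.orderEmbOfFin hJc).injective
  have heI1 : ∀ k, e k ∈ I1 := fun k => (mem_sdiff.mp (hJs (heJ k))).1
  have het : ∀ k, e k ∈ t := fun k => (mem_filter.mp (heI1 k)).1
  have heZ : ∀ k a, P (e k) a ∉ Z := fun k => (mem_filter.mp (heI1 k)).2
  have hebad : ∀ k W, ¬ BadW G D C (P (e k)) Z W := by
    intro k W hW
    exact (mem_sdiff.mp (hJs (heJ k))).2 (mem_filter.mpr ⟨heI1 k, W, hW⟩)
  have hcand : ∀ k, Cand G D C (P (e k)) := fun k => hP _ (htlt _ (het k))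
  refine ⟨fun k => P (e k), ?_, fun k => ?_, fun W hW hWC => ?_⟩
  · rintro ⟨k, a⟩ ⟨l, b⟩ h
    have h1 : k = l := heinj (hdisj _ (het k) _ (het l) a b h)
    subst h1
    have h2 : a = b := (hcand k).1 h
    rw [h2]
  · obtain ⟨_, h1, h2, h3, h4, h5, _⟩ := hcand k
    exact ⟨h1, h2, h3, h4, h5⟩
  · by_contra hcon
    push Not at hcon
    set X := outer G (fun k => P (e k)) W with hX
    -- vertices of `nb` of components
    have hsdX : ∀ k l, sd (P (e k)) l ∉ W → sd (P (e k)) l ∈ X := by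
      intro k l hl
      have hsd : ∀ l : Fin 4, ∃ a : Fin 6, sd (P (e k)) l = P (e k) a ∧ a ≠ 0 ∧ a ≠ 1 := by
        intro l
        fin_cases l
        · exact ⟨2, rfl, by decide, by decide⟩
        · exact ⟨3, rfl, by decide, by decide⟩
        · exact ⟨4, rfl, by decide, by decide⟩
        · exact ⟨5, rfl, by decide, by decide⟩
      obtain ⟨a, ha, ha0, ha1⟩ := hsd l
      rw [hX, outer, mem_filter]
      refine ⟨mem_univ _, hl, ?_, Or.inr ⟨k, ?_⟩⟩
      · intro i
        constructor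
        · intro h
          rw [ha] at h
          have h1 := heinj (hdisj _ (het k) _ (het i) _ _ h)
          subst h1
          exact ha0 ((hcand k).1 h)
        · intro h
          rw [ha] at h
          have h1 := heinj (hdisj _ (het k) _ (het i) _ _ h)
          subst h1
          exact ha1 ((hcand k).1 h)
      · fin_cases l
        · exact Or.inl rfl
        · exact Or.inr (Or.inl rfl)
        · exact Or.inr (Or.inr (Or.inl rfl))
        · exact Or.inr (Or.inr (Or.inr rfl))
    set RR : Finset V := Finset.univ.biUnion fun k : Fin K => {P (e k) 0, P (e k) 1} with hRR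
    have hRRcard : RR.card ≤ 2 * K := by
      refine (card_biUnion_le_card_mul _ _ 2 fun k _ => card_le_two).trans ?_
      simp [mul_comm]
    have hnbW : ∀ y, y ∈ nb G W → y ∈ X ∪ RR := by
      intro y hy
      rw [mem_union]
      by_cases hyR : y ∈ RR
      · exact Or.inr hyR
      left
      rw [hX, outer, mem_filter]
      obtain ⟨hyW, x, hx, hxy⟩ := mem_nb.mp hy
      refine ⟨mem_univ _, hyW, fun i => ⟨fun h => hyR ?_, fun h => hyR ?_⟩, Or.inl ⟨x, hx, hxy⟩⟩
      · rw [hRR, mem_biUnion]; exact ⟨i, mem_univ _, by simp [h]⟩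
      · rw [hRR, mem_biUnion]; exact ⟨i, mem_univ _, by simp [h]⟩
    have hdegQ : ∀ s ∈ W, ∀ x ∈ comp G W s, (nbv G x).card ≤ D := by
      intro s hs x hx
      have h1 : nbv G x ⊆ W ∪ (X ∪ RR) := by
        intro y hy
        rw [mem_nbv] at hy
        rw [mem_union]
        by_cases hyW : y ∈ W
        · exact Or.inl hyW
        · exact Or.inr (hnbW y (mem_nb.mpr ⟨hyW, x, comp_subset _ _ hx, hy⟩))
      have h2 := card_le_card h1
      have h3 := card_union_le W (X ∪ RR)
      have h4 := card_union_le X RR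
      omega
    -- the part of `W` at gadget `k`
    let Wk : Fin K → Finset V := fun k =>
      Finset.univ.biUnion fun l : Fin 4 =>
        if sd (P (e k)) l ∈ W then comp G W (sd (P (e k)) l) else ∅
    have hWk : ∀ k x, x ∈ Wk k ↔ ∃ l, sd (P (e k)) l ∈ W ∧ x ∈ comp G W (sd (P (e k)) l) := by
      intro k x
      simp only [Wk, mem_biUnion, mem_univ, true_and]
      constructor
      · rintro ⟨l, hl⟩
        by_cases h : sd (P (e k)) l ∈ W
        · rw [if_pos h] at hl; exact ⟨l, h, hl⟩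
        · rw [if_neg h] at hl; simp at hl
      · rintro ⟨l, h, hl⟩
        exact ⟨l, by rw [if_pos h]; exact hl⟩
    have hWkW : ∀ k, Wk k ⊆ W := by
      intro k x hx
      obtain ⟨l, _, hl⟩ := (hWk k x).mp hx
      exact comp_subset _ _ hl
    have hWkcl : ∀ k x y, x ∈ Wk k → y ∈ W → G.Adj x y → y ∈ Wk k := by
      intro k x y hx hy hxy
      obtain ⟨l, h, hl⟩ := (hWk k x).mp hx
      exact (hWk k y).mpr ⟨l, h, comp_closed hl hy hxy⟩
    have hprop : ∀ k, ∀ x ∈ Wk k, (nbv G x).card ≤ D ∧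
        ∃ l, sd (P (e k)) l ∈ Wk k ∧ x ∈ comp G (Wk k) (sd (P (e k)) l) := by
      intro k x hx
      obtain ⟨l, h, hl⟩ := (hWk k x).mp hx
      refine ⟨hdegQ _ h x hl, l, (hWk k _).mpr ⟨l, h, mem_comp_self h⟩, ?_⟩
      refine subset_comp (C := comp G W (sd (P (e k)) l)) ?_ (comp_conn h) (mem_comp_self h) hl
      intro y hy
      exact (hWk k y).mpr ⟨l, h, hy⟩
    have hcard4 : ∀ k, 4 ≤ (exitset G (P (e k)) Z (Wk k)).card := by
      intro k
      by_contra hlt
      exact hebad k (Wk k) ⟨fun h => (hW k).1 (hWkW k h), fun h => (hW k).2 (hWkW k h),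
        (card_le_card (hWkW k)).trans hWC, hprop k, by omega⟩
    -- Wk is inside the region
    have hWkL : ∀ k, Wk k ⊆ Lreg G D C (P (e k)) := by
      intro k
      intro x hx
      obtain ⟨hdx, l, hl, hxl⟩ := hprop k x hx
      rw [Lreg, mem_filter, mem_biUnion]
      refine ⟨⟨l, mem_univ _, ?_⟩, hdx⟩
      have hQ : Conn G (comp G (Wk k) (sd (P (e k)) l)) := comp_conn hl
      obtain ⟨p, hp, hps⟩ := hQ.exists_path (mem_comp_self hl) hxl
      have hdeg : ∀ z ∈ p.support, (nbv G z).card ≤ D := fun z hz =>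
        (hprop k z (comp_subset _ _ (hps z hz))).1
      have htr : ∀ e' ∈ p.edges, e' ∈ (Lw G D).edgeSet := by
        intro e' he
        induction e' using Sym2.ind with
        | h a b =>
          rw [SimpleGraph.mem_edgeSet]
          exact ⟨p.adj_of_mem_edges he, hdeg a (p.fst_mem_support_of_mem_edges he),
            hdeg b (p.snd_mem_support_of_mem_edges he)⟩
      rw [mem_ball]
      refine ⟨p.transfer _ htr, ?_⟩
      rw [SimpleGraph.Walk.length_transfer]
      have h1 : p.support.toFinset ⊆ Wk k := fun z hz =>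
        comp_subset _ _ (hps z (List.mem_toFinset.mp hz))
      have h2 := card_le_card h1
      rw [List.toFinset_card_of_nodup hp.support_nodup, SimpleGraph.Walk.length_support] at h2
      have h3 := card_le_card (hWkW k)
      omega
    have hexReg : ∀ k, ∀ x ∈ exitset G (P (e k)) Z (Wk k), x ∈ Reg G D C (P (e k)) ∧ x ∉ Z := by
      intro k x hx
      rw [exitset, mem_filter] at hx
      obtain ⟨_, hxW, _, _, h⟩ := hx
      rcases h with ⟨w, hw, hwx, hxZ⟩ | ⟨l, rfl⟩
      · exact ⟨nbv_subset_Reg (hWkL k hw) hwx, hxZ⟩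
      · refine ⟨im_subset_Reg (sd_mem_im _ _), ?_⟩
        obtain ⟨a, _, ha⟩ := mem_image.mp (sd_mem_im (P (e k)) l)
        rw [← ha]; exact heZ k a
    have hexX : ∀ k, exitset G (P (e k)) Z (Wk k) ⊆ X := by
      intro k x hx
      have hxReg := hexReg k x hx
      rw [exitset, mem_filter] at hx
      obtain ⟨_, hxW, hx0, hx1, h⟩ := hx
      rcases h with ⟨w, hw, hwx, hxZ⟩ | ⟨l, rfl⟩
      · have hxW' : x ∉ W := fun h => hxW (hWkcl k w x hw h hwx)
        rw [hX, outer, mem_filter]
        refine ⟨mem_univ _, hxW', fun i => ?_, Or.inl ⟨w, hWkW k hw, hwx⟩⟩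
        by_cases hik : i = k
        · subst hik; exact ⟨hx0, hx1⟩
        · have hne : e k ≠ e i := fun h => hik (heinj h.symm)
          have hnot : ∀ a, x ≠ P (e i) a := by
            intro a h
            apply hxZ
            rw [← hZ _ (het k) _ (het i) hne]
            refine mem_inter.mpr ⟨hxReg.1, im_subset_Reg ?_⟩
            rw [h]; exact mem_im _ a
          exact ⟨hnot 0, hnot 1⟩
      · apply hsdX
        intro h
        apply hxW
        exact (hWk k _).mpr ⟨l, h, mem_comp_self h⟩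
    have hpd : ∀ k ∈ (Finset.univ : Finset (Fin K)), ∀ l ∈ (Finset.univ : Finset (Fin K)),
        k ≠ l → Disjoint (exitset G (P (e k)) Z (Wk k)) (exitset G (P (e l)) Z (Wk l)) := by
      intro k _ l _ hkl
      rw [Finset.disjoint_left]
      intro x hx hx'
      have h1 := hexReg k x hx
      have h2 := hexReg l x hx'
      apply h1.2
      rw [← hZ _ (het k) _ (het l) (fun h => hkl (heinj h))]
      exact mem_inter.mpr ⟨h1.1, h2.1⟩
    have hsum : (Finset.univ.biUnion fun k : Fin K => exitset G (P (e k)) Z (Wk k)).card =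
        ∑ k : Fin K, (exitset G (P (e k)) Z (Wk k)).card := card_biUnion hpd
    have h1 : 4 * K ≤ ∑ k : Fin K, (exitset G (P (e k)) Z (Wk k)).card := by
      calc 4 * K = ∑ _k : Fin K, 4 := by simp [mul_comm]
        _ ≤ _ := sum_le_sum fun k _ => hcard4 k
    have h2 : (Finset.univ.biUnion fun k : Fin K => exitset G (P (e k)) Z (Wk k)).card ≤
        X.card := by
      apply card_le_card
      intro x hx
      obtain ⟨k, _, hk⟩ := mem_biUnion.mp hx
      exact hexX k hk
    omega

/-- (T5) Choice of the gadgets. -/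
theorem gadgets : ∃ g0 : ℕ, ∀ K C : ℕ, ∃ n0 : ℕ, ∀ {V : Type} [Fintype V] (G : SimpleGraph V),
    PM G → n0 ≤ Fintype.card V → NoShort G g0 →
    ∃ P : Fin K → Fin 6 → V, Function.Injective (fun x : Fin K × Fin 6 => P x.1 x.2) ∧
      (∀ i, G.Adj (P i 0) (P i 1) ∧ G.Adj (P i 0) (P i 2) ∧ G.Adj (P i 0) (P i 3) ∧
        G.Adj (P i 1) (P i 4) ∧ G.Adj (P i 1) (P i 5)) ∧
      ∀ W : Finset V, (∀ i, P i 0 ∉ W ∧ P i 1 ∉ W) → W.card ≤ C →
        4 * K ≤ ((Finset.univ.filter fun x => x ∉ W ∧ (∀ i, x ≠ P i 0 ∧ x ≠ P i 1) ∧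
          ((∃ w ∈ W, G.Adj w x) ∨ ∃ i, x = P i 2 ∨ x = P i 3 ∨ x = P i 4 ∨ x = P i 5))).card := by
  obtain ⟨c, hc⟩ := Pool.Agent.Helper92.Ch.pm_triple
  refine ⟨2 * c + 30, fun K C => ?_⟩
  set D := 3 * C + 6 * K + 3 with hD
  obtain ⟨n1, hn1⟩ := hc (3 * C + 3 * C * D)
  obtain ⟨N, hN⟩ := sunflower (6 + (4 * (D + 1) ^ C + 4 * (D + 1) ^ C * D))
    (K + 2 * 2 ^ (6 + (4 * (D + 1) ^ C + 4 * (D + 1) ^ C * D)) + 1 +
          (6 + (4 * (D + 1) ^ C + 4 * (D + 1) ^ C * D)) + (D + 1) ^ (C + 1) + 2)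
  obtain ⟨n2, hn2⟩ := eventually_small ((3 + 6 * D) * (D + 1) ^ C)
    (6 * N + 5 * (6 * N * (6 * N)))
  refine ⟨max n1 n2, fun {V} _ G hG hn hg => ?_⟩
  refine select_gadgets hg hD (hn1 G hG ((le_max_left _ _).trans hn))
    (fun s R hR hs => hN s R hR hs) ?_
  obtain ⟨hpos, hlt⟩ := hn2 _ ((le_max_right _ _).trans hn)
  have h1 : ((NF G D C).card : ℝ) ≤ tau (Fintype.card V) * Fintype.card V * (D + 1) ^ C := by
    have h2 : ((NF G D C).card : ℝ) ≤ (Df G).card * (D + 1) ^ C := by
      exact_mod_cast card_NF (G := G) D C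
    have h3 : ((Df G).card : ℝ) ≤ tau (Fintype.card V) * Fintype.card V :=
      Pool.Agent.Helper92.Ch.pm_deficient G hG
    exact h2.trans (mul_le_mul_of_nonneg_right h3 (by positivity))
  have h4 : ((6 * N + 5 * (6 * N * (6 * N)) + (3 + 6 * D) * (NF G D C).card : ℕ) : ℝ) <
      (Fintype.card V : ℝ) := by
    push_cast at hlt ⊢
    have h5 : ((3 : ℝ) + 6 * D) * (NF G D C).card ≤
        (3 + 6 * D) * (tau (Fintype.card V) * Fintype.card V * (D + 1) ^ C) :=
      mul_le_mul_of_nonneg_left h1 (by positivity)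
    nlinarith [h5, hlt]
  exact_mod_cast h4

end Pool.Agent.Helper75.Ch
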