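import Pool.Agent.Helper75.Ch.Basic

set_option autoImplicit false
set_option linter.unusedSectionVars false
set_option linter.unusedSimpArgs false

namespace Pool.Agent.Helper75.Ch

open Finset Classical

variable {V : Type*} [Fintype V] {G : SimpleGraph V}

/-- subgraph of edges with both ends of degree `≤ D`. -/
def Lw (G : SimpleGraph V) (D : ℕ) : SimpleGraph V where
  Adj a b := G.Adj a b ∧ (nbv G a).card ≤ D ∧ (nbv G b).card ≤ D
  symm := ⟨fun _ _ h => ⟨h.1.symm, h.2.2, h.2.1⟩⟩
  loopless := ⟨fun a h => G.loopless.irrefl a h.1⟩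

/-- ball of radius `r` in the low graph -/
noncomputable def ball (G : SimpleGraph V) (D r : ℕ) (x : V) : Finset V :=
  Finset.univ.filter fun y => ∃ p : (Lw G D).Walk x y, p.length ≤ r

theorem mem_ball {D r : ℕ} {x y : V} :
    y ∈ ball G D r x ↔ ∃ p : (Lw G D).Walk x y, p.length ≤ r := by
  simp [ball]

theorem mem_ball_self (D r : ℕ) (x : V) : x ∈ ball G D r x :=
  mem_ball.mpr ⟨SimpleGraph.Walk.nil, by simp⟩

theorem ball_symm {D r : ℕ} {x y : V} (h : y ∈ ball G D r x) : x ∈ ball G D r y := by
  obtain ⟨p, hp⟩ := mem_ball.mp h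
  exact mem_ball.mpr ⟨p.reverse, by simpa using hp⟩

theorem ball_step {D r : ℕ} {x y z : V} (h : y ∈ ball G D r x) (hyz : (Lw G D).Adj y z) :
    z ∈ ball G D (r + 1) x := by
  obtain ⟨p, hp⟩ := mem_ball.mp h
  exact mem_ball.mpr ⟨p.concat hyz, by rw [SimpleGraph.Walk.length_concat]; omega⟩

theorem ball_mono {D r s : ℕ} (hrs : r ≤ s) {x y : V} (h : y ∈ ball G D r x) :
    y ∈ ball G D s x := by
  obtain ⟨p, hp⟩ := mem_ball.mp h
  exact mem_ball.mpr ⟨p, hp.trans hrs⟩

theorem card_ball (D r : ℕ) (x : V) : (ball G D r x).card ≤ (D + 1) ^ r := by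
  induction r generalizing x with
  | zero =>
    have : ball G D 0 x ⊆ {x} := by
      intro y hy
      obtain ⟨p, hp⟩ := mem_ball.mp hy
      have := SimpleGraph.Walk.eq_of_length_eq_zero (Nat.le_zero.mp hp)
      simp [this]
    simpa using card_le_card this
  | succ r ih =>
    have h1 : ball G D (r + 1) x ⊆
        {x} ∪ ((nbv (Lw G D) x).biUnion fun z => ball G D r z) := by
      intro y hy
      obtain ⟨p, hp⟩ := mem_ball.mp hy
      cases p with
      | nil => simp
      | @cons _ v _ h q =>
        apply mem_union_right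
        rw [mem_biUnion]
        refine ⟨v, mem_nbv.mpr h, mem_ball.mpr ⟨q, ?_⟩⟩
        rw [SimpleGraph.Walk.length_cons] at hp
        omega
    have h2 : (nbv (Lw G D) x).card ≤ D := by
      by_cases hx : (nbv G x).card ≤ D
      · refine le_trans (card_le_card ?_) hx
        intro y hy
        exact mem_nbv.mpr (mem_nbv.mp hy).1
      · have : nbv (Lw G D) x = ∅ := by
          rw [eq_empty_iff_forall_notMem]
          intro y hy
          exact hx (mem_nbv.mp hy).2.1
        rw [this]; simp
    calc (ball G D (r + 1) x).card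
        ≤ ({x} ∪ ((nbv (Lw G D) x).biUnion fun z => ball G D r z)).card := card_le_card h1
      _ ≤ 1 + ((nbv (Lw G D) x).biUnion fun z => ball G D r z).card := by
          refine (card_union_le _ _).trans ?_
          simp
      _ ≤ 1 + ∑ z ∈ nbv (Lw G D) x, (ball G D r z).card := by
          gcongr
          exact card_biUnion_le
      _ ≤ 1 + ∑ z ∈ nbv (Lw G D) x, (D + 1) ^ r := by
          gcongr with z hz
          exact ih z
      _ = 1 + (nbv (Lw G D) x).card * (D + 1) ^ r := by simp
      _ ≤ 1 + D * (D + 1) ^ r := by gcongr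
      _ ≤ (D + 1) ^ (r + 1) := by
          rw [pow_succ]
          have : 1 ≤ (D + 1) ^ r := Nat.one_le_pow _ _ (by omega)
          nlinarith

/-- no vertex of degree `≤ 2` in the ball -/
def Fine (G : SimpleGraph V) (D r : ℕ) (x : V) : Prop :=
  ∀ y ∈ ball G D r x, 3 ≤ (nbv G y).card

theorem Fine.deg {D r : ℕ} {x : V} (h : Fine G D r x) : 3 ≤ (nbv G x).card :=
  h x (mem_ball_self D r x)

/-- the set of non-fine vertices -/
noncomputable def NF (G : SimpleGraph V) (D r : ℕ) : Finset V :=
  Finset.univ.filter fun x => ¬ Fine G D r x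

theorem mem_NF {D r : ℕ} {x : V} : x ∈ NF G D r ↔ ¬ Fine G D r x := by simp [NF]

/-- the set of deficient vertices -/
noncomputable def Df (G : SimpleGraph V) : Finset V :=
  Finset.univ.filter fun x : V => (nbv G x).card ≤ 2

theorem card_NF (D r : ℕ) : (NF G D r).card ≤ (Df G).card * (D + 1) ^ r := by
  have h1 : NF G D r ⊆ (Df G).biUnion fun y => ball G D r y := by
    intro x hx
    rw [mem_NF, Fine] at hx
    push Not at hx
    obtain ⟨y, hy, hy2⟩ := hx
    rw [mem_biUnion]
    refine ⟨y, ?_, ball_symm hy⟩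
    simp only [Df, mem_filter, mem_univ, true_and]
    omega
  calc (NF G D r).card ≤ _ := card_le_card h1
    _ ≤ ∑ y ∈ Df G, (ball G D r y).card := card_biUnion_le
    _ ≤ ∑ y ∈ Df G, (D + 1) ^ r := by
        gcongr with z hz
        exact card_ball _ _ _
    _ = _ := by simp

theorem deg_NF {D r : ℕ} (hD : 2 ≤ D) {x : V} (hx : x ∈ NF G D r) : (nbv G x).card ≤ D := by
  rw [mem_NF, Fine] at hx
  push Not at hx
  obtain ⟨y, hy, hy2⟩ := hx
  obtain ⟨p, hp⟩ := mem_ball.mp hy
  cases p with
  | nil => omega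
  | cons h q => exact h.2.1

end Pool.Agent.Helper75.Ch
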