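import Pool.Agent.Helper75.Ch.Gadgets
import Pool.Agent.Helper19.Ch.Cycle
import Pool.Agent.Helper70.Rooted
import Pool.Agent.Helper88.Ch.KqModel

set_option autoImplicit false
set_option linter.unusedSectionVars false
set_option linter.unusedSimpArgs false

namespace Pool.Agent.Helper75.Ch

open Finset Classical

variable {V : Type*} [Fintype V]

/-- delete all edges at `R` -/
def cut (G : SimpleGraph V) (R : Finset V) : SimpleGraph V where
  Adj a b := G.Adj a b ∧ a ∉ R ∧ b ∉ R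
  symm := ⟨fun _ _ h => ⟨h.1.symm, h.2.2, h.2.1⟩⟩
  loopless := ⟨fun a h => G.loopless.irrefl a h.1⟩

theorem conn_cut {G : SimpleGraph V} {R A : Finset V} (hA : Conn G A) (h : Disjoint A R) :
    Conn (cut G R) A := by
  refine ⟨hA.1, fun W hW hne hcl => hA.2 W hW hne fun x hx y hy hxy => hcl x hx y hy ?_⟩
  exact ⟨hxy, Finset.disjoint_left.mp h (hW hx), Finset.disjoint_left.mp h hy⟩

theorem conn_of_cut {G : SimpleGraph V} {R A : Finset V} (hA : Conn (cut G R) A) :
    Conn G A :=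
  ⟨hA.1, fun W hW hne hcl => hA.2 W hW hne fun x hx y hy hxy => hcl x hx y hy hxy.1⟩

theorem disjoint_of_cut {G : SimpleGraph V} {R A : Finset V} (hA : Conn (cut G R) A) {s : V}
    (hs : s ∈ A) (hsR : s ∉ R) : ∀ r ∈ R, r ∉ A := by
  intro r hr hrA
  have := hA.2 {r} (by simpa using hrA) (singleton_nonempty r) (by
    intro x hx y _ hxy
    rw [mem_singleton] at hx
    subst hx
    exact absurd hr hxy.2.1)
  rw [← this, mem_singleton] at hs
  exact hsR (hs ▸ hr)

/-- the separation condition in the graph without the gadget edges -/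
theorem sep_cond {G : SimpleGraph V} {K C : ℕ} (P : Fin K → Fin 6 → V)
    (hpk : ∀ W : Finset V, (nb G W).card ≤ 6 * K →
      W.card ≤ C ∨ (Finset.univ \ (W ∪ nb G W)).card ≤ C)
    (hP : ∀ W : Finset V, (∀ i, P i 0 ∉ W ∧ P i 1 ∉ W) → W.card ≤ C →
        4 * K ≤ ((Finset.univ.filter fun x => x ∉ W ∧ (∀ i, x ≠ P i 0 ∧ x ≠ P i 1) ∧
          ((∃ w ∈ W, G.Adj w x) ∨ ∃ i, x = P i 2 ∨ x = P i 3 ∨ x = P i 4 ∨ x = P i 5))).card)
    (R S : Finset V) (hR : ∀ x, x ∈ R ↔ ∃ i, x = P i 0 ∨ x = P i 1) (hRc : R.card ≤ 2 * K)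
    (hS : ∀ i, P i 2 ∈ S ∧ P i 3 ∈ S ∧ P i 4 ∈ S ∧ P i 5 ∈ S)
    {ι : Type*} [Fintype ι] (A : ι → Finset V) (hA : ∀ i, Conn G (A i))
    (hd : ∀ i j, i ≠ j → Disjoint (A i) (A j)) (ht : ∀ i j, i ≠ j → Touch G (A i) (A j))
    (hAR : ∀ i, Disjoint (A i) R) (hι : C + 4 * K < Fintype.card ι)
    (W : Finset V) (hW : ((nb (cut G R) W ∪ S) \ W).card < 4 * K) (j : ι) :
    ¬ Disjoint (A j) (W ∪ nb (cut G R) W ∪ S) := by
  intro hdis
  rw [Finset.disjoint_left] at hdis
  set Xs := (nb (cut G R) W ∪ S) \ W with hXs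
  set Y := Finset.univ \ (W ∪ Xs ∪ R) with hY
  have hmemY : ∀ x, x ∈ Y ↔ x ∉ W ∧ x ∉ Xs ∧ x ∉ R := by
    intro x
    simp only [hY, mem_sdiff, mem_univ, true_and, mem_union, not_or, and_assoc]
  have hXsW : ∀ x ∈ Xs, x ∉ W := fun x hx => (mem_sdiff.mp hx).2
  -- an edge from W to outside, avoiding R, ends in Xs
  have hedge : ∀ x y, x ∈ W → y ∉ W → G.Adj x y → x ∉ R → y ∉ R → y ∈ Xs := by
    intro x y hx hy hxy hxR hyR
    rw [hXs, mem_sdiff, mem_union]
    exact ⟨Or.inl (mem_nb.mpr ⟨hy, x, hx, hxy, hxR, hyR⟩), hy⟩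
  have hAjY : A j ⊆ Y := by
    intro x hx
    have h1 := hdis hx
    simp only [mem_union, not_or] at h1
    rw [hmemY]
    refine ⟨h1.1.1, fun h => ?_, Finset.disjoint_left.mp (hAR j) hx⟩
    rcases mem_union.mp (mem_sdiff.mp h).1 with h' | h'
    · exact h1.1.2 h'
    · exact h1.2 h'
  have hnbY : nb G Y ⊆ Xs ∪ R := by
    intro y hy
    obtain ⟨hyY, x, hx, hxy⟩ := mem_nb.mp hy
    rw [hmemY] at hx
    rw [mem_union]
    by_contra hcon
    rw [not_or] at hcon
    have hyW : y ∈ W := by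
      by_contra hyW
      exact hyY ((hmemY y).mpr ⟨hyW, hcon.1, hcon.2⟩)
    exact hx.2.1 (hedge y x hyW hx.1 hxy.symm hcon.2 hx.2.2)
  have hnbYc : (nb G Y).card ≤ 6 * K := by
    have h1 := card_le_card hnbY
    have h2 := card_union_le Xs R
    omega
  have hAl : ∀ l, Disjoint (A l) Xs → A l ⊆ Y := by
    intro l hl
    by_cases hlj : l = j
    · rw [hlj]; exact hAjY
    obtain ⟨x, hx, y, hy, hxy⟩ := ht j l (Ne.symm hlj)
    have hxY := (hmemY x).mp (hAjY hx)
    have hyR := Finset.disjoint_left.mp (hAR l) hy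
    have hyX := Finset.disjoint_left.mp hl hy
    have hyW : y ∉ W := fun h => hxY.2.1 (hedge y x h hxY.1 hxy.symm hyR hxY.2.2)
    refine (hA l).subset_of_closed hy ((hmemY y).mpr ⟨hyW, hyX, hyR⟩) ?_
    intro a ha haA b hb hab
    have haY := (hmemY a).mp ha
    have hbR := Finset.disjoint_left.mp (hAR l) hb
    rw [hmemY]
    refine ⟨fun h => ?_, Finset.disjoint_left.mp hl hb, hbR⟩
    exact haY.2.1 (hedge b a h haY.1 hab.symm hbR haY.2.2)
  have hneV : Nonempty V := ⟨(hA j).1.choose⟩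
  have hYbig : C < Y.card := by
    set J := (Finset.univ : Finset ι).filter (fun l => Disjoint (A l) Xs) with hJ
    have h1 : Fintype.card ι ≤ J.card + Xs.card := by
      have h2 : J.card + ((Finset.univ : Finset ι).filter (fun l => ¬ Disjoint (A l) Xs)).card =
          Fintype.card ι := by
        rw [hJ, ← card_univ]
        exact card_filter_add_card_filter_not (s := Finset.univ) (fun l => Disjoint (A l) Xs)
      have h3 : ((Finset.univ : Finset ι).filter (fun l => ¬ Disjoint (A l) Xs)).card ≤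
          Xs.card := by
        have key : ∀ l ∈ (Finset.univ : Finset ι).filter (fun l => ¬ Disjoint (A l) Xs),
            ∃ x, x ∈ A l ∧ x ∈ Xs := by
          intro l hl
          exact Finset.not_disjoint_iff.mp (mem_filter.mp hl).2
        choose! f hf using key
        refine card_le_card_of_injOn f (fun l hl => (hf l hl).2) ?_
        intro l hl l' hl' hll
        by_contra hne
        exact Finset.disjoint_left.mp (hd l l' hne) (hf l hl).1 (hll ▸ (hf l' hl').1)
      omega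
    have h2 : J.card ≤ Y.card := by
      have key : ∀ l ∈ J, ∃ x, x ∈ A l := fun l _ => (hA l).1
      choose! f hf using key
      refine card_le_card_of_injOn f (fun l hl => hAl l (mem_filter.mp hl).2 (hf l hl)) ?_
      intro l hl l' hl' hll
      by_contra hne
      exact Finset.disjoint_left.mp (hd l l' hne) (hf l hl) (hll ▸ (hf l' hl'))
    omega
  rcases hpk Y hnbYc with h1 | h1
  · omega
  have hW'c : (W \ R).card ≤ C := by
    refine (card_le_card ?_).trans h1
    intro w hw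
    rw [mem_sdiff] at hw
    rw [mem_sdiff, mem_union, not_or]
    refine ⟨mem_univ _, fun h => ((hmemY w).mp h).1 hw.1, fun h => ?_⟩
    rcases mem_union.mp (hnbY h) with h' | h'
    · exact hXsW w h' hw.1
    · exact hw.2 h'
  have h2 := hP (W \ R) (fun i => ⟨fun h => (mem_sdiff.mp h).2 ((hR _).mpr ⟨i, Or.inl rfl⟩),
    fun h => (mem_sdiff.mp h).2 ((hR _).mpr ⟨i, Or.inr rfl⟩)⟩) hW'c
  have h3 : (Finset.univ.filter fun x => x ∉ W \ R ∧ (∀ i, x ≠ P i 0 ∧ x ≠ P i 1) ∧
          ((∃ w ∈ W \ R, G.Adj w x) ∨ ∃ i, x = P i 2 ∨ x = P i 3 ∨ x = P i 4 ∨ x = P i 5)) ⊆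
          Xs := by
    intro x hx
    rw [mem_filter] at hx
    obtain ⟨_, hxW, hxR', h⟩ := hx
    have hxR : x ∉ R := by
      intro h
      obtain ⟨i, hi | hi⟩ := (hR x).mp h
      · exact (hxR' i).1 hi
      · exact (hxR' i).2 hi
    have hxW' : x ∉ W := fun h => hxW (mem_sdiff.mpr ⟨h, hxR⟩)
    rcases h with ⟨w, hw, hwx⟩ | ⟨i, hi⟩
    · rw [mem_sdiff] at hw
      exact hedge w x hw.1 hxW' hwx hw.2 hxR
    · rw [hXs, mem_sdiff, mem_union]
      refine ⟨Or.inr ?_, hxW'⟩
      obtain ⟨s2, s3, s4, s5⟩ := hS i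
      rcases hi with h | h | h | h <;> rw [h] <;> assumption
  have h4 := card_le_card h3
  omega

/-- assembling the cycle -/
theorem cycle_assembly {G : SimpleGraph V} {K : ℕ} (hK : 0 < K) (P : Fin K → Fin 6 → V)
    (hinj : Function.Injective (fun x : Fin K × Fin 6 => P x.1 x.2))
    (hadj : ∀ i, G.Adj (P i 0) (P i 1) ∧ G.Adj (P i 0) (P i 2) ∧ G.Adj (P i 0) (P i 3) ∧
        G.Adj (P i 1) (P i 4) ∧ G.Adj (P i 1) (P i 5))
    (S : Finset V) (hS : ∀ i, P i 2 ∈ S ∧ P i 3 ∈ S ∧ P i 4 ∈ S ∧ P i 5 ∈ S)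
    (T : V → Finset V) (hT : ∀ s ∈ S, s ∈ T s ∧ Conn G (T s))
    (hTT : ∀ s ∈ S, ∀ s' ∈ S, s ≠ s' → Disjoint (T s) (T s') ∧ Touch G (T s) (T s'))
    (hTR : ∀ s ∈ S, ∀ i, P i 0 ∉ T s ∧ P i 1 ∉ T s) :
    ∃ (v : V) (c : G.Walk v v), c.IsCycle ∧
      K ≤ {e : Sym2 V | e ∈ G.edgeSet ∧ (∀ x ∈ e, x ∈ c.support) ∧ e ∉ c.edges}.ncard := by
  let P' : ℕ → Fin 6 → V := fun n => P ⟨n % K, Nat.mod_lt _ hK⟩
  have hP'inj : ∀ i j a b, P' i a = P' j b → i % K = j % K ∧ a = b := by
    intro i j a b h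
    have := hinj (a₁ := (⟨i % K, Nat.mod_lt _ hK⟩, a)) (a₂ := (⟨j % K, Nat.mod_lt _ hK⟩, b)) h
    simp only [Prod.mk.injEq, Fin.mk.injEq] at this
    exact this
  have hS' : ∀ i, P' i 2 ∈ S ∧ P' i 3 ∈ S ∧ P' i 4 ∈ S ∧ P' i 5 ∈ S := fun i => hS _
  have hadj' : ∀ i, G.Adj (P' i 0) (P' i 1) ∧ G.Adj (P' i 0) (P' i 2) ∧
    G.Adj (P' i 0) (P' i 3) ∧ G.Adj (P' i 1) (P' i 4) ∧ G.Adj (P' i 1) (P' i 5) := fun i => hadj _
  let w : ℕ → V := fun i => if i % 2 = 0 then P' (i / 2) 0 else P' (i / 2) 1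
  let out : ℕ → V := fun i => if i % 2 = 0 then P' (i / 2) 3 else P' (i / 2) 5
  let inn : ℕ → V := fun i => if i % 2 = 0 then P' (i / 2) 4 else P' (i / 2 + 1) 2
  let B : ℕ → Finset V := fun i => T (out i) ∪ T (inn i)
  have houtS : ∀ i, out i ∈ S := by
    intro i
    by_cases h : i % 2 = 0
    · simp only [out, h, if_true]; exact (hS' _).2.1
    · simp only [out, h, if_false]; exact (hS' _).2.2.2
  have hinnS : ∀ i, inn i ∈ S := by
    intro i
    by_cases h : i % 2 = 0
    · simp only [inn, h, if_true]; exact (hS' _).2.2.1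
    · simp only [inn, h, if_false]; exact (hS' _).1
  have hoo : ∀ i < 2 * K, ∀ j < 2 * K, out i = out j → i = j := by
    intro i hi j hj h
    by_cases h1 : i % 2 = 0 <;> by_cases h2 : j % 2 = 0 <;>
      simp only [out, h1, h2, if_true, if_false] at h
    · have := (hP'inj _ _ _ _ h).1
      rw [Nat.mod_eq_of_lt (by omega), Nat.mod_eq_of_lt (by omega)] at this
      omega
    · exact absurd (hP'inj _ _ _ _ h).2 (by decide)
    · exact absurd (hP'inj _ _ _ _ h).2 (by decide)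
    · have := (hP'inj _ _ _ _ h).1
      rw [Nat.mod_eq_of_lt (by omega), Nat.mod_eq_of_lt (by omega)] at this
      omega
  have hii : ∀ i < 2 * K, ∀ j < 2 * K, inn i = inn j → i = j := by
    intro i hi j hj h
    by_cases h1 : i % 2 = 0 <;> by_cases h2 : j % 2 = 0 <;>
      simp only [inn, h1, h2, if_true, if_false] at h
    · have := (hP'inj _ _ _ _ h).1
      rw [Nat.mod_eq_of_lt (by omega), Nat.mod_eq_of_lt (by omega)] at this
      omega
    · exact absurd (hP'inj _ _ _ _ h).2 (by decide)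
    · exact absurd (hP'inj _ _ _ _ h).2 (by decide)
    · have := (hP'inj _ _ _ _ h).1
      have e1 : (i / 2 + 1) % K = if i / 2 + 1 = K then 0 else i / 2 + 1 := by
        by_cases h : i / 2 + 1 = K
        · rw [if_pos h, h, Nat.mod_self]
        · rw [if_neg h, Nat.mod_eq_of_lt (by omega)]
      have e2 : (j / 2 + 1) % K = if j / 2 + 1 = K then 0 else j / 2 + 1 := by
        by_cases h : j / 2 + 1 = K
        · rw [if_pos h, h, Nat.mod_self]
        · rw [if_neg h, Nat.mod_eq_of_lt (by omega)]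
      rw [e1, e2] at this
      by_cases h3 : i / 2 + 1 = K <;> by_cases h4 : j / 2 + 1 = K
      · omega
      · rw [if_pos h3, if_neg h4] at this; omega
      · rw [if_neg h3, if_pos h4] at this; omega
      · rw [if_neg h3, if_neg h4] at this; omega
  have hoi : ∀ i j, out i ≠ inn j := by
    intro i j h
    by_cases h1 : i % 2 = 0 <;> by_cases h2 : j % 2 = 0 <;>
      simp only [out, inn, h1, h2, if_true, if_false] at h <;>
      exact absurd (hP'inj _ _ _ _ h).2 (by decide)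
  have hwB : ∀ i j, w i ∉ B j := by
    intro i j h
    have h0 : w i = P' (i / 2) 0 ∨ w i = P' (i / 2) 1 := by
      by_cases h1 : i % 2 = 0
      · left; simp only [w, h1, if_true]
      · right; simp only [w, h1, if_false]
    have h1 := hTR _ (houtS j) ⟨(i / 2) % K, Nat.mod_lt _ hK⟩
    have h2 := hTR _ (hinnS j) ⟨(i / 2) % K, Nat.mod_lt _ hK⟩
    rcases mem_union.mp h with h3 | h3 <;> rcases h0 with h0 | h0 <;> rw [h0] at h3
    · exact h1.1 h3
    · exact h1.2 h3
    · exact h2.1 h3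
    · exact h2.2 h3
  have hw : ∀ i < 2 * K, ∀ j < 2 * K, w i = w j → i = j := by
    intro i hi j hj h
    by_cases h1 : i % 2 = 0 <;> by_cases h2 : j % 2 = 0 <;>
      simp only [w, h1, h2, if_true, if_false] at h
    · have := (hP'inj _ _ _ _ h).1
      rw [Nat.mod_eq_of_lt (by omega), Nat.mod_eq_of_lt (by omega)] at this
      omega
    · exact absurd (hP'inj _ _ _ _ h).2 (by decide)
    · exact absurd (hP'inj _ _ _ _ h).2 (by decide)
    · have := (hP'inj _ _ _ _ h).1
      rw [Nat.mod_eq_of_lt (by omega), Nat.mod_eq_of_lt (by omega)] at this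
      omega
  obtain ⟨v, c, hc, hsup, hedges⟩ := Pool.Agent.Helper19.Ch.cycle_of_blocks G (2 * K - 1) (by omega)
    w (fun i hi j hj h => hw i (by omega) j (by omega) h) B
    (fun i hi => (hT _ (houtS i)).2.union_of_touch (hT _ (hinnS i)).2
      (hTT _ (houtS i) _ (hinnS i) (hoi i i)).2)
    (by
      intro i hi j hj hij
      rw [Finset.disjoint_union_left, Finset.disjoint_union_right, Finset.disjoint_union_right]
      refine ⟨⟨(hTT _ (houtS i) _ (houtS j) ?_).1, (hTT _ (houtS i) _ (hinnS j) (hoi i j)).1⟩,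
        (hTT _ (hinnS i) _ (houtS j) (hoi j i).symm).1, (hTT _ (hinnS i) _ (hinnS j) ?_).1⟩
      · exact fun h => hij (hoo i (by omega) j (by omega) h)
      · exact fun h => hij (hii i (by omega) j (by omega) h))
    (fun i _ j _ => hwB i j)
    (by
      intro i _
      refine ⟨out i, mem_union_left _ (hT _ (houtS i)).1, ?_⟩
      by_cases h1 : i % 2 = 0
      · simp only [w, out, h1, if_true]; exact (hadj' _).2.2.1
      · simp only [w, out, h1, if_false]; exact (hadj' _).2.2.2.2)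
    (by
      intro i hi
      refine ⟨inn i, mem_union_right _ (hT _ (hinnS i)).1, ?_⟩
      by_cases h1 : i % 2 = 0
      · have h2 : ¬ (i + 1) % 2 = 0 := by omega
        have h3 : (i + 1) / 2 = i / 2 := by omega
        simp only [w, inn, h1, h2, h3, if_true, if_false]
        exact (hadj' _).2.2.2.1.symm
      · have h2 : (i + 1) % 2 = 0 := by omega
        have h3 : (i + 1) / 2 = i / 2 + 1 := by omega
        simp only [w, inn, h1, h2, h3, if_true, if_false]
        exact (hadj' _).2.1.symm)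
    (by
      refine ⟨inn (2 * K - 1), mem_union_right _ (hT _ (hinnS _)).1, ?_⟩
      have h1 : ¬ (2 * K - 1) % 2 = 0 := by omega
      have h2 : (2 * K - 1) / 2 + 1 = K := by omega
      have h3 : P' K = P' 0 := by
        simp only [P', Nat.mod_self, Nat.zero_mod]
      have h4 : w 0 = P' 0 0 := by simp [w]
      rw [h4]
      simp only [inn, h1, h2, if_false, h3]
      exact (hadj' 0).2.1.symm)
  refine ⟨v, c, hc, ?_⟩
  let f : Fin K → Sym2 V := fun k => s(P k 0, P k 1)
  have hPk : ∀ k : Fin K, w (2 * k) = P k 0 ∧ w (2 * k + 1) = P k 1 := by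
    intro k
    have e1 : (2 * (k : ℕ)) % 2 = 0 := by omega
    have e2 : (2 * (k : ℕ)) / 2 = k := by omega
    have e3 : ¬ (2 * (k : ℕ) + 1) % 2 = 0 := by omega
    have e4 : (2 * (k : ℕ) + 1) / 2 = k := by omega
    have e5 : P' k = P k := by
      simp only [P', Nat.mod_eq_of_lt k.2]
    constructor
    · simp only [w, e1, e2, if_true, e5]
    · simp only [w, e3, e4, if_false, e5]
  have hfinj : Function.Injective f := by
    intro k l hkl
    simp only [f, Sym2.eq_iff] at hkl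
    rcases hkl with ⟨h, _⟩ | ⟨h, _⟩
    · exact congrArg Prod.fst (hinj (a₁ := (k, 0)) (a₂ := (l, 0)) h)
    · exact congrArg Prod.fst (hinj (a₁ := (k, 0)) (a₂ := (l, 1)) h)
  have hsub : Set.range f ⊆
      {e : Sym2 V | e ∈ G.edgeSet ∧ (∀ x ∈ e, x ∈ c.support) ∧ e ∉ c.edges} := by
    rintro _ ⟨k, rfl⟩
    have hk := k.2
    refine ⟨(hadj k).1, ?_, ?_⟩
    · intro x hx
      simp only [f, Sym2.mem_iff] at hx
      rcases hx with h | h
      · rw [h, ← (hPk k).1]; exact hsup _ (by omega)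
      · rw [h, ← (hPk k).2]; exact hsup _ (by omega)
    · intro he
      obtain ⟨j, _, x, hxB, hx⟩ := hedges _ he
      simp only [f, Sym2.mem_iff] at hx
      rcases hx with h | h
      · rw [h, ← (hPk k).1] at hxB; exact hwB _ _ hxB
      · rw [h, ← (hPk k).2] at hxB; exact hwB _ _ hxB
  have h1 := Set.ncard_le_ncard hsub (Set.toFinite _)
  rw [Set.ncard_eq_toFinset_card', Set.toFinset_range, card_image_of_injective _ hfinj] at h1
  simpa using h1

theorem main_K : ∃ g0 : ℕ, ∀ K : ℕ, ∃ n0 : ℕ, ∀ {V : Type} [Fintype V] (G : SimpleGraph V),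
    PM G → n0 ≤ Fintype.card V → NoShort G g0 →
    ∃ (v : V) (c : G.Walk v v), c.IsCycle ∧
      K ≤ {e : Sym2 V | e ∈ G.edgeSet ∧ (∀ x ∈ e, x ∈ c.support) ∧ e ∉ c.edges}.ncard := by
  obtain ⟨g0, hg0⟩ := gadgets
  refine ⟨g0, fun K => ?_⟩
  rcases Nat.eq_zero_or_pos K with hK | hK
  · subst hK
    refine ⟨1, fun {V} _ G hG hn _ => ?_⟩
    obtain ⟨v, c, hc⟩ := Pool.Agent.Helper19.Ch.pm_cycle G hG (Fintype.card_pos_iff.mp (by omega))
    exact ⟨v, c, hc, Nat.zero_le _⟩
  obtain ⟨C, n1, h1⟩ := Pool.Agent.Helper92.Ch.pm_pocket (6 * K)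
  obtain ⟨n2, h2⟩ := hg0 K C
  obtain ⟨n3, h3⟩ := Pool.Agent.Helper92.Ch.pm_expand
  set q := (4 * K) * (4 * K) + 2 * (4 * K) + 1 + 2 * K + 4 * K + C + 1 with hq
  obtain ⟨n4, h4⟩ := Pool.Agent.Helper88.Ch.kq_model q
  refine ⟨max (max n1 n2) (max n3 n4), fun {V} _ G hG hn hg => ?_⟩
  have hn1 : n1 ≤ Fintype.card V := (le_max_left _ _).trans ((le_max_left _ _).trans hn)
  have hn2 : n2 ≤ Fintype.card V := (le_max_right _ _).trans ((le_max_left _ _).trans hn)
  have hn3 : n3 ≤ Fintype.card V := (le_max_left _ _).trans ((le_max_right _ _).trans hn)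
  have hn4 : n4 ≤ Fintype.card V := (le_max_right _ _).trans ((le_max_right _ _).trans hn)
  obtain ⟨P, hinj, hadj, hP⟩ := h2 G hG hn2 hg
  obtain ⟨A, hA, hd, ht⟩ := h4 G hn4 (h3 G hG hn3)
  let R : Finset V := Finset.univ.image (fun x : Fin K × Fin 2 => P x.1 (x.2.castLE (by norm_num)))
  let S : Finset V := Finset.univ.image (fun x : Fin K × Fin 4 => P x.1 (x.2.natAdd 2))
  have hR : ∀ x, x ∈ R ↔ ∃ i, x = P i 0 ∨ x = P i 1 := by
    intro x
    simp only [R, mem_image, mem_univ, true_and]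
    constructor
    · rintro ⟨⟨i, a⟩, rfl⟩
      refine ⟨i, ?_⟩
      fin_cases a
      · exact Or.inl rfl
      · exact Or.inr rfl
    · rintro ⟨i, h | h⟩
      · exact ⟨(i, 0), h.symm⟩
      · exact ⟨(i, 1), h.symm⟩
  have hRc : R.card ≤ 2 * K := by
    refine card_image_le.trans ?_
    simp [mul_comm]
  have hS : ∀ i, P i 2 ∈ S ∧ P i 3 ∈ S ∧ P i 4 ∈ S ∧ P i 5 ∈ S := by
    intro i
    simp only [S, mem_image, mem_univ, true_and]
    exact ⟨⟨(i, 0), rfl⟩, ⟨(i, 1), rfl⟩, ⟨(i, 2), rfl⟩, ⟨(i, 3), rfl⟩⟩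
  have hSc : S.card = 4 * K := by
    have : Function.Injective (fun x : Fin K × Fin 4 => P x.1 (x.2.natAdd 2)) := by
      rintro ⟨i, a⟩ ⟨j, b⟩ h
      have := hinj (a₁ := (i, a.natAdd 2)) (a₂ := (j, b.natAdd 2)) h
      simp only [Prod.mk.injEq] at this
      obtain ⟨h1, h2⟩ := this
      rw [h1, Fin.natAdd_injective _ _ h2]
    rw [show S = Finset.univ.image (fun x : Fin K × Fin 4 => P x.1 (x.2.natAdd 2)) from rfl,
      card_image_of_injective _ this]
    simp [mul_comm]
  have hSR : ∀ s ∈ S, s ∉ R := by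
    intro s hs h
    obtain ⟨⟨i, a⟩, _, rfl⟩ := mem_image.mp hs
    obtain ⟨j, h | h⟩ := (hR _).mp h
    · have := hinj (a₁ := (i, a.natAdd 2)) (a₂ := (j, 0)) h
      simp only [Prod.mk.injEq] at this
      have h2 := this.2
      fin_cases a <;> exact absurd h2 (by decide)
    · have := hinj (a₁ := (i, a.natAdd 2)) (a₂ := (j, 1)) h
      simp only [Prod.mk.injEq] at this
      have h2 := this.2
      fin_cases a <;> exact absurd h2 (by decide)
  let ι := {j : Fin q // Disjoint (A j) R}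
  have hιc : q ≤ Fintype.card ι + 2 * K := by
    have h5 : ((Finset.univ : Finset (Fin q)).filter (fun l => Disjoint (A l) R)).card +
        ((Finset.univ : Finset (Fin q)).filter (fun l => ¬ Disjoint (A l) R)).card = q := by
      have := card_filter_add_card_filter_not (s := (Finset.univ : Finset (Fin q)))
        (fun l => Disjoint (A l) R)
      simpa using this
    have h6 : ((Finset.univ : Finset (Fin q)).filter (fun l => ¬ Disjoint (A l) R)).card ≤
        R.card := by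
      have key : ∀ l ∈ (Finset.univ : Finset (Fin q)).filter (fun l => ¬ Disjoint (A l) R),
          ∃ x, x ∈ A l ∧ x ∈ R := by
        intro l hl
        exact Finset.not_disjoint_iff.mp (mem_filter.mp hl).2
      have : Nonempty V := Fintype.card_pos_iff.mp (by
        have := hSc
        have h7 : S.card ≤ Fintype.card V := card_le_univ _
        omega)
      choose! f hf using key
      refine card_le_card_of_injOn f (fun l hl => (hf l hl).2) ?_
      intro l hl l' hl' hll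
      by_contra hne
      exact Finset.disjoint_left.mp (hd l l' hne) (hf l hl).1 (hll ▸ (hf l' hl').1)
    have h7 : Fintype.card ι =
        ((Finset.univ : Finset (Fin q)).filter (fun l => Disjoint (A l) R)).card := by
      rw [Fintype.card_subtype]
    omega
  have hrt := Pool.Agent.Helper70.Rooted.rooted_of_menger
    (fun H A B k h => Pool.Agent.Helper19.Ch.menger H A B k h) (cut G R) S
    (fun j : ι => A j.1) (fun j => conn_cut (hA j.1) j.2)
    (fun i j hij => hd i.1 j.1 (fun h => hij (Subtype.ext h)))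
    (fun i j hij => by
      obtain ⟨x, hx, y, hy, hxy⟩ := ht i.1 j.1 (fun h => hij (Subtype.ext h))
      exact ⟨x, hx, y, hy, hxy, Finset.disjoint_left.mp i.2 hx, Finset.disjoint_left.mp j.2 hy⟩)
    (by rw [hSc]; omega)
    (fun W hW j => sep_cond P (h1 G hG hn1) hP R S hR hRc hS (fun j : ι => A j.1)
      (fun j => hA j.1) (fun i j hij => hd i.1 j.1 (fun h => hij (Subtype.ext h)))
      (fun i j hij => ht i.1 j.1 (fun h => hij (Subtype.ext h))) (fun j => j.2)
      (by omega) W (by rw [hSc] at hW; exact hW) j)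
  obtain ⟨T, hT, hTT⟩ := hrt
  refine cycle_assembly hK P hinj hadj S hS T (fun s hs => ⟨(hT s hs).1, conn_of_cut (hT s hs).2⟩)
    (fun s hs s' hs' hne => ⟨(hTT s hs s' hs' hne).1, ?_⟩) ?_
  · obtain ⟨x, hx, y, hy, hxy⟩ := (hTT s hs s' hs' hne).2
    exact ⟨x, hx, y, hy, hxy.1⟩
  · intro s hs i
    have := disjoint_of_cut (hT s hs).2 (hT s hs).1 (hSR s hs)
    exact ⟨this _ ((hR _).mpr ⟨i, Or.inl rfl⟩), this _ ((hR _).mpr ⟨i, Or.inr rfl⟩)⟩

end Pool.Agent.Helper75.Ch
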