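import Pool.Agent.Helper75.Ch.Family

set_option autoImplicit false
set_option linter.unusedSectionVars false
set_option linter.unusedSimpArgs false

namespace Pool.Agent.Helper75.Ch

open Finset Classical

variable {V : Type*} [Fintype V] {G : SimpleGraph V}

/-- In a graph without short cycles, every seed of a small set `W` has its own exit. -/
theorem tree_exits {g : ℕ} (hg : NoShort G g) {u v : V} (huv : G.Adj u v) (s ct : Fin 4 → V)
    (hs : Function.Injective s) (hct : ∀ k, ct k = u ∨ ct k = v)
    (hadj : ∀ k, G.Adj (ct k) (s k)) (hus : ∀ k, s k ≠ u) (hvs : ∀ k, s k ≠ v)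
    (W Z : Finset V) (hu : u ∉ W) (hv : v ∉ W) (hdeg : ∀ x ∈ W, 3 ≤ (nbv G x).card)
    (hZ : (nb G W ∩ Z).card ≤ 1) (hsize : W.card + 8 < g) :
    4 ≤ (Finset.univ.filter (fun x => x ∉ W ∧ x ≠ u ∧ x ≠ v ∧
      ((∃ w ∈ W, G.Adj w x ∧ x ∉ Z) ∨ ∃ k, x = s k))).card := by
  have hctW : ∀ k, ct k ∉ W := fun k => by
    rcases hct k with h | h <;> rw [h] <;> assumption
  -- existence of exits
  have hexit : ∀ k, s k ∈ W → ∃ x ∈ comp G W (s k), ∃ y, G.Adj x y ∧ y ∉ W ∧ y ∉ Z ∧ y ≠ u ∧
      y ≠ v ∧ ∀ l, y ≠ s l := by
    intro k hk
    set Q := comp G W (s k) with hQ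
    have hQconn : Conn G Q := comp_conn hk
    have hskQ : s k ∈ Q := mem_comp_self hk
    have hQW : Q ⊆ W := comp_subset _ _
    -- the vertex x and the connected set T
    let St : Finset V := {u, v} ∪ Finset.univ.image s
    have hx : ∃ x ∈ Q, Conn G (Q.erase x ∪ St.erase x) := by
      -- removing from St
      have hSt : ∀ x, x ≠ u → x ≠ v → Conn G (St.erase x) := by
        intro x hxu hxv
        have h1 : ∀ A : Finset (Fin 4), Conn G (({u, v} ∪ A.image s).erase x) := by
          intro A
          induction A using Finset.induction_on with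
          | empty =>
            rw [image_empty, union_empty, erase_eq_of_notMem]
            · exact conn_pair huv
            · simp [hxu, hxv]
          | insert a A ha ih =>
            rw [image_insert, union_insert]
            by_cases hxa : x = s a
            · rw [hxa, erase_insert_eq_erase, ← hxa]; exact ih
            · rw [erase_insert_of_ne (Ne.symm hxa)]
              refine ih.insert (x := ct a) ?_ (hadj a)
              rw [mem_erase]
              constructor
              · rcases hct a with h | h <;> rw [h]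
                · exact hxu.symm
                · exact hxv.symm
              · rcases hct a with h | h <;> rw [h] <;> simp
        exact h1 Finset.univ
      rcases hQconn.exists_removable hskQ with h | ⟨x, hx, hxs, hxc⟩
      · refine ⟨s k, hskQ, ?_⟩
        have : Q.erase (s k) = ∅ := by rw [h]; simp
        rw [this, empty_union]
        exact hSt _ (hus k) (hvs k)
      · refine ⟨x, hx, ?_⟩
        have hxu : x ≠ u := fun h => hu (h ▸ hQW hx)
        have hxv : x ≠ v := fun h => hv (h ▸ hQW hx)
        refine hxc.union_of_mem (hSt x hxu hxv) (x := s k) (mem_erase.mpr ⟨hxs.symm, hskQ⟩) ?_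
        rw [mem_erase]
        exact ⟨hxs.symm, by simp [St]⟩
    obtain ⟨x, hxQ, hT⟩ := hx
    set T := Q.erase x ∪ St.erase x with hTdef
    have hStcard : St.card ≤ 6 := by
      refine (card_union_le _ _).trans ?_
      have h1 : ({u, v} : Finset V).card ≤ 2 := card_le_two
      have h2 : (Finset.univ.image s).card ≤ 4 := card_image_le.trans (by simp)
      omega
    have hTcard : T.card ≤ W.card + 6 := by
      refine (card_union_le _ _).trans ?_
      have h1 : (Q.erase x).card ≤ W.card := card_le_card ((erase_subset _ _).trans hQW)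
      have h2 : (St.erase x).card ≤ 6 := (card_le_card (erase_subset _ _)).trans hStcard
      omega
    have hxT : x ∉ T := by simp [hTdef]
    have hN1 : (nbv G x ∩ T).card ≤ 1 := by
      rw [card_le_one]
      intro a ha b hb
      rw [mem_inter, mem_nbv] at ha hb
      exact hg.unique hT (by omega) hxT ha.2 hb.2 ha.1 hb.1
    have hN2 : 2 ≤ (nbv G x \ T).card := by
      have h1 := hdeg x (hQW hxQ)
      have h2 := card_inter_add_card_sdiff (nbv G x) T
      omega
    have hnbW : ∀ y ∈ nbv G x \ T, y ∉ W := by
      intro y hy hyW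
      rw [mem_sdiff, mem_nbv] at hy
      have := comp_closed hxQ hyW hy.1
      exact hy.2 (mem_union_left _ (mem_erase.mpr ⟨hy.1.ne', this⟩))
    have hexy : ∃ y ∈ nbv G x \ T, y ∉ Z := by
      by_contra hcon
      push Not at hcon
      have h1 : nbv G x \ T ⊆ nb G W ∩ Z := by
        intro y hy
        rw [mem_inter, mem_nb]
        exact ⟨⟨hnbW y hy, x, hQW hxQ, mem_nbv.mp (mem_sdiff.mp hy).1⟩, hcon y hy⟩
      have := card_le_card h1
      omega
    obtain ⟨y, hy, hyZ⟩ := hexy
    have hyW := hnbW y hy
    rw [mem_sdiff, mem_nbv] at hy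
    have hySt : y ∉ St := fun h =>
      hy.2 (mem_union_right _ (mem_erase.mpr ⟨hy.1.ne', h⟩))
    simp only [St, mem_union, mem_insert, mem_singleton, mem_image, mem_univ, true_and,
      not_or, not_exists] at hySt
    exact ⟨x, hxQ, y, hy.1, hyW, hyZ, hySt.1.1, hySt.1.2, fun l h => hySt.2 l h.symm⟩
  -- distinct seeds lie in distinct components
  have hdist : ∀ k l, s k ∈ W → s l ∈ W → comp G W (s k) = comp G W (s l) → k = l := by
    intro k l hk hl heq
    by_contra hne
    have hQ : Conn G (comp G W (s k)) := comp_conn hk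
    have h1 : s k ∈ comp G W (s k) := mem_comp_self hk
    have h2 : s l ∈ comp G W (s k) := by rw [heq]; exact mem_comp_self hl
    have hcard : (comp G W (s k)).card ≤ W.card := card_le_card (comp_subset _ _)
    by_cases hc : ct k = ct l
    · have := hg.unique hQ (y := ct k) (by omega) (fun h => hctW k (comp_subset _ _ h)) h1 h2
        (hadj k) (hc ▸ hadj l)
      exact hne (hs this)
    · have huv' : G.Adj (ct k) (ct l) := by
        rcases hct k with h | h <;> rcases hct l with h' | h'
        · exact absurd (h.trans h'.symm) hc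
        · rw [h, h']; exact huv
        · rw [h, h']; exact huv.symm
        · exact absurd (h.trans h'.symm) hc
      have hT := hQ.insert h2 (hadj l).symm
      have := hg.unique hT (y := ct k) (by
        have := card_insert_le (ct l) (comp G W (s k)); omega) (by
        rw [mem_insert, not_or]
        exact ⟨hc, fun h => hctW k (comp_subset _ _ h)⟩) (mem_insert_of_mem h1)
        (mem_insert_self _ _) (hadj k) huv'
      exact hctW l (this ▸ hk)
  have : Nonempty V := ⟨u⟩
  choose! ex hex ey hey using hexit
  have hyinj : ∀ k l, s k ∈ W → s l ∈ W → ey k = ey l → k = l := by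
    intro k l hk hl heq
    by_contra hne
    have hcomp : comp G W (s k) ≠ comp G W (s l) := fun h => hne (hdist k l hk hl h)
    have hxne : ex k ≠ ex l := by
      intro h
      apply hcomp
      rw [← comp_eq_of_mem hk (hex k hk), h, comp_eq_of_mem hl (hex l hl)]
    have hc1 : Conn G (comp G W (s k)) := comp_conn hk
    have hc2 : Conn G (comp G W (s l)) := comp_conn hl
    have hT1 : Conn G ({u, v} ∪ comp G W (s k)) :=
      (conn_pair huv).union_of_adj hc1 (x := ct k) (y := s k)
        (by rcases hct k with h | h <;> rw [h] <;> simp) (mem_comp_self hk) (hadj k)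
    have hT2 : Conn G (({u, v} ∪ comp G W (s k)) ∪ comp G W (s l)) :=
      hT1.union_of_adj hc2 (x := ct l) (y := s l)
        (by rcases hct l with h | h <;> rw [h] <;> simp) (mem_comp_self hl) (hadj l)
    have hcard : (({u, v} ∪ comp G W (s k)) ∪ comp G W (s l)).card ≤ W.card + 2 := by
      have h1 : (({u, v} ∪ comp G W (s k)) ∪ comp G W (s l)) ⊆ {u, v} ∪ W := by
        intro z hz
        simp only [mem_union] at hz ⊢
        rcases hz with (h | h) | h
        · exact Or.inl h
        · exact Or.inr (comp_subset _ _ h)
        · exact Or.inr (comp_subset _ _ h)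
      refine (card_le_card h1).trans ((card_union_le _ _).trans ?_)
      have : ({u, v} : Finset V).card ≤ 2 := card_le_two
      omega
    have hk' := hey k hk
    have hl' := hey l hl
    refine hxne (hg.unique hT2 (y := ey k) (by omega) ?_
      (mem_union_left _ (mem_union_right _ (hex k hk))) (mem_union_right _ (hex l hl))
      hk'.1.symm (heq ▸ hl'.1.symm))
    simp only [mem_union, mem_insert, mem_singleton, not_or]
    exact ⟨⟨⟨hk'.2.2.2.1, hk'.2.2.2.2.1⟩, fun h => hk'.2.1 (comp_subset _ _ h)⟩,
      fun h => hk'.2.1 (comp_subset _ _ h)⟩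
  -- the injection
  let φ : Fin 4 → V := fun k => if s k ∈ W then ey k else s k
  have hφ : Function.Injective φ := by
    intro k l hkl
    by_cases hk : s k ∈ W <;> by_cases hl : s l ∈ W
    · simp only [φ, hk, hl, if_true] at hkl
      exact hyinj k l hk hl hkl
    · simp only [φ, hk, hl, if_true, if_false] at hkl
      exact absurd hkl ((hey k hk).2.2.2.2.2 l)
    · simp only [φ, hk, hl, if_true, if_false] at hkl
      exact absurd hkl.symm ((hey l hl).2.2.2.2.2 k)
    · simp only [φ, hk, hl, if_false] at hkl
      exact hs hkl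
  have h4 : (Finset.univ.image φ).card = 4 := by
    rw [card_image_of_injective _ hφ]; simp
  refine h4.ge.trans (card_le_card ?_)
  intro z hz
  obtain ⟨k, _, rfl⟩ := mem_image.mp hz
  rw [mem_filter]
  refine ⟨mem_univ _, ?_⟩
  by_cases hk : s k ∈ W
  · have h := hey k hk
    simp only [φ, hk, if_true]
    exact ⟨h.2.1, h.2.2.2.1, h.2.2.2.2.1, Or.inl ⟨ex k, comp_subset _ _ (hex k hk), h.1, h.2.2.1⟩⟩
  · have hφk : φ k = s k := by simp only [φ, hk, if_false]
    rw [hφk]
    exact ⟨hk, hus k, hvs k, Or.inr ⟨k, rfl⟩⟩

end Pool.Agent.Helper75.Ch
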